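import Mathlib
import Pool.Agent.R930.Jordan

set_option autoImplicit false
set_option linter.unusedSectionVars false

/-!
# Elements of the group in the algebra generated by the Lie algebra of the Tate forms
-/

open Module Polynomial

namespace Pool.Agent.R912.T

open Pool.Agent.H204R3.SP Pool.Agent.H204R3.GP Pool.Agent.W522.U
open Pool.Agent.TH118.CR Pool.Agent.R930

noncomputable section

variable {K : Type} [Field K] [CharZero K] {X : Type} [AddCommGroup X] [Module K X]

/-! ## Unipotent operators -/

/-- A nilpotent operator is a polynomial in `v * (1 + ...)`. -/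
theorem nilp_mem {v N : Module.End K X} {d : ℕ} (hd : v ^ d = 0) (L : K[X]) 
    (hN : N = v * aeval v L) (hL : L.coeff 0 = 1) : v ∈ Algebra.adjoin K {N} := by
  have hvc : ∀ q : K[X], Commute v (aeval v q) := fun q => by
    have h1 : v * aeval v q = aeval v (Polynomial.X * q) := by rw [map_mul, aeval_X]
    have h2 : aeval v q * v = aeval v (q * Polynomial.X) := by rw [map_mul, aeval_X]
    change v * aeval v q = aeval v q * v
    rw [h1, h2, mul_comm]
  have key : ∀ k : ℕ, ∀ j : ℕ, 1 ≤ j → d ≤ j + k → ∀ q : K[X],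
      v ^ j * aeval v q ∈ Algebra.adjoin K {N} := by
    intro k
    induction k with
    | zero =>
      intro j _ hj q
      rw [pow_eq_zero_of_le (by omega) hd, zero_mul]
      exact Subalgebra.zero_mem _
    | succ k ih =>
      intro j hj hjk q
      -- the constant terms
      obtain ⟨q1, hq1⟩ : ∃ q1 : K[X], q = C (q.coeff 0) + Polynomial.X * q1 :=
        ⟨q.divX, by rw [add_comm, mul_comm]; exact (divX_mul_X_add q).symm⟩
      obtain ⟨r, hr⟩ : ∃ r : K[X], L ^ j = 1 + Polynomial.X * r := by
        refine ⟨(L ^ j).divX, ?_⟩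
        have h1 := divX_mul_X_add (L ^ j)
        have h2 : (L ^ j).coeff 0 = 1 := by
          rw [coeff_zero_eq_eval_zero, eval_pow, ← coeff_zero_eq_eval_zero, hL, one_pow]
        rw [h2, map_one] at h1
        rw [add_comm, mul_comm Polynomial.X]
        exact h1.symm
      have h1 : N ^ j = v ^ j + v ^ (j + 1) * aeval v r := by
        rw [hN, (hvc L).mul_pow, ← map_pow, hr, map_add, map_one, map_mul, aeval_X, mul_add, mul_one,
          ← mul_assoc, ← pow_succ]
      have h2 : v ^ j * aeval v q = (q.coeff 0) • (N ^ j) + v ^ (j + 1) * aeval v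
          (q1 - C (q.coeff 0) * r) := by
        conv_lhs => rw [hq1]
        rw [h1, map_add, map_sub, map_mul, map_mul, aeval_X, aeval_C, mul_add, ← mul_assoc, ← pow_succ,
          mul_sub, smul_add, ← Algebra.commutes, Algebra.smul_def, Algebra.smul_def]
        have h3 : v ^ (j + 1) * (algebraMap K (Module.End K X) (q.coeff 0) * aeval v r) =
            algebraMap K (Module.End K X) (q.coeff 0) * (v ^ (j + 1) * aeval v r) := by
          rw [← mul_assoc, ← Algebra.commutes, mul_assoc]
        rw [h3]
        abel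
      have h4 : N ∈ Algebra.adjoin K {N} := Algebra.self_mem_adjoin_singleton K N
      have h5 := ih (j + 1) (by omega) (by omega) (q1 - C (q.coeff 0) * r)
      rw [h2]
      exact Subalgebra.add_mem _ (Subalgebra.smul_mem _ (Subalgebra.pow_mem _ h4 j) _) h5
  have h1 := key d 1 le_rfl (by omega) 1
  rwa [pow_one, map_one, mul_one] at h1

/-- The logarithm generates. -/
theorem nilp_mem_log {v : Module.End K X} {d : ℕ} (hd : v ^ d = 0) :
    v ∈ Algebra.adjoin K {∑ j : Fin d, lc K j • v ^ (j : ℕ)} := by
  by_cases hd2 : d ≤ 1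
  · have h1 : v = 0 := by
      have h2 := pow_eq_zero_of_le hd2 hd
      rwa [pow_one] at h2
    rw [h1]
    exact Subalgebra.zero_mem _
  refine nilp_mem hd (∑ j ∈ Finset.range (d - 1), C (lc K (j + 1)) * Polynomial.X ^ j) ?_ ?_
  · rw [Fin.sum_univ_eq_sum_range (fun j => lc K j • v ^ j) d]
    obtain ⟨d', rfl⟩ : ∃ d', d = d' + 1 := ⟨d - 1, by omega⟩
    rw [Finset.sum_range_succ', lc_zero, zero_smul, add_zero, Nat.add_sub_cancel, map_sum,
      Finset.mul_sum]
    refine Finset.sum_congr rfl fun j _ => ?_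
    rw [map_mul, map_pow, aeval_X, aeval_C, ← mul_assoc, ← Algebra.commutes, mul_assoc, ← pow_succ',
      Algebra.smul_def]
  · rw [finsetSum_coeff, Finset.sum_eq_single 0]
    · simp [lc_one]
    · intro j _ hj
      rw [coeff_C_mul, coeff_X_pow, if_neg (Ne.symm hj), mul_zero]
    · intro h
      exact absurd (Finset.mem_range.2 (by omega)) h

/-! ## Diagonal operators -/

variable [FiniteDimensional K X]

theorem dg_mul {ι : Type} (b : Basis ι K X) (t t' : ι → K) :
    dg b (fun k => t k * t' k) = dg b t * dg b t' := by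
  refine b.ext fun i => ?_
  rw [Module.End.mul_apply, dg_basis, dg_basis, map_smul, dg_basis, smul_smul, mul_comm]

theorem dg_add {ι : Type} (b : Basis ι K X) (t t' : ι → K) :
    dg b (fun k => t k + t' k) = dg b t + dg b t' := by
  refine b.ext fun i => ?_
  rw [LinearMap.add_apply, dg_basis, dg_basis, dg_basis, add_smul]

theorem dg_const {ι : Type} (b : Basis ι K X) (c : K) :
    dg b (fun _ => c) = algebraMap K (Module.End K X) c := by
  refine b.ext fun i => ?_
  rw [dg_basis, Module.algebraMap_end_apply]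

/-- The functions that give operators in the algebra. -/
def dgAlg {ι : Type} (b : Basis ι K X) (A : Subalgebra K (Module.End K X)) :
    Subalgebra K (ι → K) where
  carrier := {t | dg b t ∈ A}
  mul_mem' := fun {s t} hs ht => by
    change dg b (fun k => s k * t k) ∈ A
    rw [dg_mul]
    exact A.mul_mem hs ht
  add_mem' := fun {s t} hs ht => by
    change dg b (fun k => s k + t k) ∈ A
    rw [dg_add]
    exact A.add_mem hs ht
  algebraMap_mem' := fun c => by
    change dg b (fun _ => c) ∈ A
    rw [dg_const]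
    exact A.algebraMap_mem c

theorem mem_dgAlg {ι : Type} {b : Basis ι K X} {A : Subalgebra K (Module.End K X)} {t : ι → K} :
    t ∈ dgAlg b A ↔ dg b t ∈ A := Iff.rfl

/-- Separation. -/
theorem sep_mem {ι : Type} [Fintype ι] {Y : Type} [DecidableEq Y] (a : ι → Y)
    (D : Subalgebra K (ι → K))
    (hsep : ∀ i j, a i ≠ a j → ∃ t : Y → K, t (a i) ≠ t (a j) ∧ (fun k => t (a k)) ∈ D)
    (f : Y → K) : (fun k => f (a k)) ∈ D := by
  classical
  choose! t ht1 ht2 using hsep
  -- separating functions of the values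
  have h1 : ∀ x ∈ Finset.univ.image a, ∀ y ∈ Finset.univ.image a, x ≠ y →
      ∃ t : Y → K, t x ≠ t y ∧ (fun k => t (a k)) ∈ D := by
    intro x hx y hy hxy
    obtain ⟨i, -, rfl⟩ := Finset.mem_image.1 hx
    obtain ⟨j, -, rfl⟩ := Finset.mem_image.1 hy
    exact ⟨t i j, ht1 i j hxy, ht2 i j hxy⟩
  have h2 : ∀ x ∈ Finset.univ.image a, (fun k => if a k = x then (1 : K) else 0) ∈ D := by
    intro x hx
    choose! s hs1 hs2 using h1 x hx
    have h3 : (fun k => if a k = x then (1 : K) else 0) =
        ∏ y ∈ (Finset.univ.image a).erase x, (fun k => (s y x - s y y)⁻¹ * (s y (a k) - s y y)) := by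
      funext k
      rw [Finset.prod_apply]
      split_ifs with h
      · symm
        refine Finset.prod_eq_one fun y hy => ?_
        rw [Finset.mem_erase] at hy
        rw [h, inv_mul_cancel₀ (sub_ne_zero.2 (hs1 y hy.2 (Ne.symm hy.1)))]
      · symm
        refine Finset.prod_eq_zero (i := a k) (Finset.mem_erase.2 ⟨h, Finset.mem_image_of_mem _
          (Finset.mem_univ _)⟩) ?_
        rw [sub_self, mul_zero]
    rw [h3]
    refine Subalgebra.prod_mem _ fun y hy => ?_
    rw [Finset.mem_erase] at hy
    have h4 : (fun k => (s y x - s y y)⁻¹ * (s y (a k) - s y y)) =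
        (s y x - s y y)⁻¹ • ((fun k => s y (a k)) - algebraMap K (ι → K) (s y y)) := by
      funext k
      rfl
    rw [h4]
    exact D.smul_mem (D.sub_mem (hs2 y hy.2 (Ne.symm hy.1)) (D.algebraMap_mem _)) _
  have h3 : (fun k => f (a k)) = ∑ x ∈ Finset.univ.image a, f x •
      (fun k => if a k = x then (1 : K) else 0) := by
    funext k
    rw [Finset.sum_apply, Finset.sum_eq_single (a k)]
    · rw [Pi.smul_apply, if_pos rfl, smul_eq_mul, mul_one]
    · intro y _ hy
      rw [Pi.smul_apply, if_neg (Ne.symm hy), smul_zero]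
    · intro h
      exact absurd (Finset.mem_image_of_mem _ (Finset.mem_univ _)) h
  rw [h3]
  exact D.sum_mem fun x hx => D.smul_mem (h2 x hx) _

/-! ## The operator -/

variable [IsAlgClosed K] {Γ : Type} [Group Γ] {R : Representation K Γ X} {χ : Γ →* K}

/-- An operator a power of which fixes any given Tate form is in the algebra generated by the Lie
algebra. -/
theorem mem_adjoin_of_fix {T : Module.End K X} (hTinj : ∀ v, T v = 0 → v = 0)
    (hfix : ∀ (m : ℕ) (φ : MultilinearMap K (fun _ : Fin m × Fin 2 => X) K), IsTate R χ m φ →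
      ∃ M : ℕ, M ≠ 0 ∧ ∀ v, φ (fun k => (T ^ M) (v k)) = φ v)
    (hneat : ∀ z z' : K, (∃ u, u ≠ 0 ∧ T u = z • u) → (∃ u, u ≠ 0 ∧ T u = z' • u) →
      ∀ r : ℕ, 0 < r → (z / z') ^ r = 1 → z = z') :
    T ∈ Algebra.adjoin K (lieT R χ : Set (Module.End K X)) := by
  classical
  obtain ⟨s, n, b, a, hT, hsn, ⟨d, hd⟩, hss, hb, hst⟩ := exists_jordan T hTinj
  have hTn : ∀ i, ((T - (a i : K) • (1 : Module.End K X)) ^ d) (b i) = 0 := by
    intro i
    have h1 : ∀ k : ℕ, ((T - (a i : K) • (1 : Module.End K X)) ^ k) (b i) = (n ^ k) (b i) ∧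
        s ((n ^ k) (b i)) = (a i : K) • (n ^ k) (b i) := by
      intro k
      induction k with
      | zero => exact ⟨rfl, hb i⟩
      | succ k ih =>
        have h2 : (n ^ (k + 1)) (b i) = n ((n ^ k) (b i)) := by
          rw [pow_succ', Module.End.mul_apply]
        have h3 : s (n ((n ^ k) (b i))) = (a i : K) • n ((n ^ k) (b i)) := by
          rw [← Module.End.mul_apply, hsn, Module.End.mul_apply, ih.2, map_smul]
        rw [h2, pow_succ', Module.End.mul_apply, ih.1]
        refine ⟨?_, h3⟩
        rw [LinearMap.sub_apply, hT, LinearMap.add_apply, ih.2, LinearMap.smul_apply,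
          Module.End.one_apply]
        abel
    rw [(h1 d).1, hd]
    rfl
  -- the eigenvalues
  have heig : ∀ i, ∃ u, u ≠ 0 ∧ T u = (a i : K) • u := by
    intro i
    have hex : ∃ j : ℕ, (n ^ j) (b i) = 0 := ⟨d, by rw [hd]; rfl⟩
    obtain ⟨j, hj⟩ : ∃ j, j = Nat.find hex := ⟨_, rfl⟩
    have hj0 : j ≠ 0 := by
      intro h0
      have h2 := Nat.find_spec hex
      rw [← hj, h0] at h2
      exact b.ne_zero i h2
    have hj1 : (n ^ (j - 1)) (b i) ≠ 0 := fun h => by
      have h2 := Nat.find_min' hex h
      omega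
    have hall : ∀ k : ℕ, s ((n ^ k) (b i)) = (a i : K) • (n ^ k) (b i) := by
      intro k
      induction k with
      | zero => exact hb i
      | succ k ih =>
        rw [pow_succ', Module.End.mul_apply, ← Module.End.mul_apply, hsn, Module.End.mul_apply, ih,
          map_smul]
    refine ⟨(n ^ (j - 1)) (b i), hj1, ?_⟩
    have h3 : n ((n ^ (j - 1)) (b i)) = 0 := by
      rw [← Module.End.mul_apply, ← pow_succ']
      have h4 : j - 1 + 1 = j := by omega
      rw [h4, hj]
      exact Nat.find_spec hex
    rw [hT, LinearMap.add_apply, hall, h3, add_zero]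
  -- invariant forms
  have key : ∀ (m : ℕ) (φ : MultilinearMap K (fun _ : Fin m × Fin 2 => X) K), IsTate R χ m φ →
      ∃ M : ℕ, M ≠ 0 ∧ (∀ v, φ (fun k => (T ^ M) (v k)) = φ v) ∧
        ∀ I : Fin m × Fin 2 → Fin (finrank K X), φ (fun k => b (I k)) ≠ 0 →
          ∏ k, a (I k) ^ M = 1 := by
    intro m φ hφ
    obtain ⟨M, hM0, h1⟩ := hfix m φ hφ
    refine ⟨M, hM0, h1, fun I hI => ?_⟩
    by_contra hcon
    apply hI
    refine zero_of_prod h1 (fun k => (a (I k) : K) ^ M) (fun h => hcon (Units.ext ?_)) _
      (fun _ => d) _ le_rfl fun k => pow_sub_pow_apply (hTn (I k)) M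
    push_cast
    exact h
  -- the semisimple part
  have hs1 : s ∈ Algebra.adjoin K (lieT R χ : Set (Module.End K X)) ∧
      dg b (fun i => ((a i)⁻¹ : Kˣ).val) ∈ Algebra.adjoin K (lieT R χ : Set (Module.End K X)) := by
    have h1 : ∀ f : Kˣ → K, (fun k => f (a k)) ∈
        dgAlg b (Algebra.adjoin K (lieT R χ : Set (Module.End K X))) := by
      refine sep_mem a _ fun i j hij => ?_
      obtain ⟨f, hf⟩ := exists_add (a i * (a j)⁻¹) (by
        intro k hk h
        apply hij
        refine Units.ext (hneat _ _ (heig i) (heig j) k hk ?_)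
        have h1 := congrArg (fun y : Kˣ => (y : K)) h
        push_cast at h1
        rw [div_eq_mul_inv]
        simpa using h1)
      refine ⟨fun x => f (Additive.ofMul x), ?_, ?_⟩
      · intro h
        apply hf
        have h' : f (Additive.ofMul (a i)) = f (Additive.ofMul (a j)) := h
        rw [ofMul_mul, ofMul_inv, map_add, map_neg, h', add_neg_cancel]
      · rw [mem_dgAlg]
        refine Algebra.subset_adjoin ?_
        intro m φ hφ
        obtain ⟨M, hM0, -, hprod⟩ := key m φ hφ
        refine kills_of_basis b _ _ fun I => ?_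
        have h1 : ∀ l : Fin m × Fin 2, φ (Function.update (fun l => b (I l)) l
            (dg b (fun k => f (Additive.ofMul (a k))) (b (I l)))) =
            f (Additive.ofMul (a (I l))) * φ (fun l => b (I l)) := by
          intro l
          rw [dg_basis, MultilinearMap.map_update_smul, smul_eq_mul, Function.update_eq_self]
        rw [Finset.sum_congr rfl fun l _ => h1 l, ← Finset.sum_mul]
        by_cases h0 : φ (fun l => b (I l)) = 0
        · rw [h0, mul_zero]
        have h2 := congrArg (fun x : Kˣ => f (Additive.ofMul x)) (hprod I h0)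
        simp only [ofMul_prod, ofMul_pow, map_sum, map_nsmul, nsmul_eq_mul, ofMul_one,
          map_zero] at h2
        rw [← Finset.mul_sum] at h2
        rw [(mul_eq_zero.1 h2).resolve_left (Nat.cast_ne_zero.2 hM0), zero_mul]
    refine ⟨?_, mem_dgAlg.1 (h1 (fun x => ((x⁻¹ : Kˣ) : K)))⟩
    have h2 : s = dg b (fun k => (a k : K)) := by
      refine b.ext fun i => ?_
      rw [dg_basis, hb]
    rw [h2]
    exact mem_dgAlg.1 (h1 (fun x => (x : K)))
  -- the unipotent part
  obtain ⟨s', hs'd⟩ : ∃ s', s' = dg b (fun i => ((a i)⁻¹ : Kˣ).val) := ⟨_, rfl⟩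
  have hs'b : ∀ i, s' (b i) = (((a i)⁻¹ : Kˣ) : K) • b i := fun i => by rw [hs'd, dg_basis]
  have hs's : s' * s = 1 := by
    refine b.ext fun i => ?_
    rw [Module.End.mul_apply, hb, map_smul, hs'b, smul_smul, Module.End.one_apply]
    rw [Units.mul_inv, one_smul]
  have hss' : s * s' = 1 := by
    refine b.ext fun i => ?_
    rw [Module.End.mul_apply, hs'b, map_smul, hb, smul_smul, Module.End.one_apply]
    rw [Units.inv_mul, one_smul]
  have hs'n : s' * n = n * s' := by
    calc s' * n = s' * n * (s * s') := by rw [hss', mul_one]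
    _ = s' * (n * s) * s' := by noncomm_ring
    _ = s' * (s * n) * s' := by rw [hsn]
    _ = (s' * s) * n * s' := by noncomm_ring
    _ = n * s' := by rw [hs's, one_mul]
  have hcomm : Commute s' T := by
    change s' * T = T * s'
    rw [hT, mul_add, add_mul, hs's, hss', hs'n]
  have hv : 1 + s' * n = s' * T := by rw [hT, mul_add, hs's]
  have hvd : (s' * n) ^ d = 0 := by
    have h1 : Commute s' n := hs'n
    rw [h1.mul_pow, hd, mul_zero]
  have hlog : ∑ j : Fin d, lc K j • (s' * n) ^ (j : ℕ) ∈ lieT R χ := by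
    intro m φ hφ
    obtain ⟨M, hM0, hM, hprod⟩ := key m φ hφ
    refine log_kills hvd hM0 fun w => ?_
    have hsM : ∀ w, φ (fun k => (s ^ M) (w k)) = φ w := by
      have h1 : φ.compLinearMap (fun _ => s ^ M) = φ := by
        refine Basis.ext_multilinear (fun _ => b) fun I => ?_
        change φ (fun k => (s ^ M) (b (I k))) = φ (fun k => b (I k))
        have h2 : ∀ i, ∀ r : ℕ, (s ^ r) (b i) = ((a i : K) ^ r) • b i := by
          intro i r
          induction r with
          | zero => rw [pow_zero, pow_zero, one_smul]; rfl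
          | succ r ih =>
            rw [pow_succ', Module.End.mul_apply, ih, map_smul, hb, smul_smul, pow_succ]
        have h3 : (fun k => (s ^ M) (b (I k))) = fun k => ((a (I k) : K) ^ M) • b (I k) := by
          funext k
          exact h2 _ _
        rw [h3, MultilinearMap.map_smul_univ, smul_eq_mul]
        by_cases h0 : φ (fun k => b (I k)) = 0
        · rw [h0, mul_zero]
        · have h4 := congrArg (fun y : Kˣ => (y : K)) (hprod I h0)
          push_cast at h4
          rw [h4, one_mul]
      intro w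
      exact congrArg (fun ψ : MultilinearMap K (fun _ : Fin m × Fin 2 => X) K => ψ w) h1
    have hs'M : ∀ w, φ (fun k => (s' ^ M) (w k)) = φ w := by
      intro w
      rw [← hsM (fun k => (s' ^ M) (w k))]
      congr 1
      funext k
      rw [← Module.End.mul_apply]
      have h1 : Commute s s' := by
        change s * s' = s' * s
        rw [hss', hs's]
      rw [← h1.mul_pow, hss', one_pow]
      rfl
    rw [hv, hcomm.mul_pow, ← hM w]
    exact hs'M (fun k => (T ^ M) (w k))
  have hvm : s' * n ∈ Algebra.adjoin K (lieT R χ : Set (Module.End K X)) := by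
    have h1 := nilp_mem_log hvd
    refine Algebra.adjoin_mono ?_ h1
    rw [Set.singleton_subset_iff]
    exact hlog
  have hfin : T = s * (1 + s' * n) := by
    rw [hv, ← mul_assoc, hss', one_mul]
  rw [hfin]
  exact Subalgebra.mul_mem _ hs1.1 (Subalgebra.add_mem _ (Subalgebra.one_mem _) hvm)

/-- **Neat elements of the group** are in the algebra generated by the Lie algebra. -/
theorem mem_adjoin_lieT {g : Γ}
    (hneat : ∀ z z' : K, (∃ u, u ≠ 0 ∧ R g u = z • u) → (∃ u, u ≠ 0 ∧ R g u = z' • u) →
      ∀ r : ℕ, 0 < r → (z / z') ^ r = 1 → z = z') :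
    R g ∈ Algebra.adjoin K (lieT R χ : Set (Module.End K X)) := by
  obtain ⟨t, ht⟩ := IsAlgClosed.exists_pow_nat_eq (χ g) (n := 2) (by norm_num)
  have ht0 : t ≠ 0 := by
    rintro rfl
    exact χne (χ := χ) g (by rw [← ht]; norm_num)
  have h1 : t⁻¹ • R g ∈ Algebra.adjoin K (lieT R χ : Set (Module.End K X)) := by
    refine mem_adjoin_of_fix ?_ ?_ ?_
    · intro v hv
      rw [LinearMap.smul_apply, smul_eq_zero] at hv
      by_contra h0
      exact Rne g h0 (hv.resolve_left (inv_ne_zero ht0))
    · rintro m φ ⟨Δ, hΔ, hφ⟩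
      obtain ⟨M, hM0, hM⟩ := exists_pow_mem Δ hΔ g
      refine ⟨M, hM0, fun v => ?_⟩
      have h2 := hφ _ hM v
      have h3 : (fun k => ((t⁻¹ • R g) ^ M) (v k)) = fun k => (t⁻¹ ^ M) • R (g ^ M) (v k) := by
        funext k
        rw [_root_.smul_pow, LinearMap.smul_apply, map_pow]
      rw [h3, MultilinearMap.map_smul_univ, h2, Finset.prod_const, Finset.card_univ,
        Fintype.card_prod, Fintype.card_fin, Fintype.card_fin, smul_eq_mul, ← mul_assoc, map_pow,
        ← ht]
      have h4 : (t⁻¹ ^ M) ^ (m * 2) * ((t ^ 2) ^ M) ^ m = 1 := by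
        rw [inv_pow, inv_pow, ← pow_mul, ← pow_mul, ← pow_mul]
        have h5 : M * (m * 2) = 2 * (M * m) := by ring
        rw [h5, inv_mul_cancel₀ (pow_ne_zero _ ht0)]
      rw [h4, one_mul]
    · rintro z z' ⟨u, hu0, hu⟩ ⟨v, hv0, hv⟩ r hr h
      have h2 : ∀ (z : K) (u : X), (t⁻¹ • R g) u = z • u → R g u = (t * z) • u := by
        intro z u hu
        rw [LinearMap.smul_apply] at hu
        rw [mul_smul, ← hu, smul_smul, mul_inv_cancel₀ ht0, one_smul]
      have h3 := hneat (t * z) (t * z') ⟨u, hu0, h2 z u hu⟩ ⟨v, hv0, h2 z' v hv⟩ r hr (by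
        rw [mul_div_mul_left _ _ ht0, h])
      exact mul_left_cancel₀ ht0 h3
  have h2 : R g = t • (t⁻¹ • R g) := by rw [smul_smul, mul_inv_cancel₀ ht0, one_smul]
  rw [h2]
  exact Subalgebra.smul_mem _ h1 _

end

end Pool.Agent.R912.T
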