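import Mathlib
import Pool.Agent.R912.Q.TH5

set_option autoImplicit false
set_option linter.unusedSectionVars false

/-!
# Transvections that commute with the commutant
-/

open Module Matrix

namespace Pool.Agent.R912

open Pool.Agent.Y102.SP Q

attribute [local instance 100] LieRing.ofAssociativeRing

variable {U : Type} [AddCommGroup U] [Module ℂ U] [FiniteDimensional ℂ U]
  {L : Submodule ℂ (Module.End ℂ U)} {ω : U →ₗ[ℂ] U →ₗ[ℂ] ℂ}

theorem adj_stab {M : Submodule ℂ U} (hM : ∀ x ∈ L, ∀ u ∈ M, x u ∈ M) :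
    ∀ r ∈ Algebra.adjoin ℂ (L : Set (Module.End ℂ U)), ∀ v ∈ M, r v ∈ M := by
  intro r hr
  refine Algebra.adjoin_induction (p := fun r _ => ∀ v ∈ M, r v ∈ M) ?_ ?_ ?_ ?_ hr
  · intro X hX v hv
    exact hM X hX v hv
  · intro c v hv
    exact M.smul_mem c hv
  · intro a b _ _ ha hb v hv
    exact M.add_mem (ha v hv) (hb v hv)
  · intro a b _ _ ha hb v hv
    exact ha _ (hb v hv)

theorem adj_comm {k : Module.End ℂ U} (hk : k ∈ comL L) :
    ∀ r ∈ Algebra.adjoin ℂ (L : Set (Module.End ℂ U)), r * k = k * r := by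
  intro r hr
  induction hr using Algebra.adjoin_induction with
  | mem x hx => exact hk x hx
  | algebraMap c => exact Algebra.commutes c k
  | add x y _ _ hx hy => rw [add_mul, mul_add, hx, hy]
  | mul x y _ _ hx hy => rw [mul_assoc, hy, ← mul_assoc, hx, mul_assoc]

set_option synthInstance.maxHeartbeats 200000 in
/-- Burnside. -/
theorem burn {N : Submodule ℂ U} (hN : IrrSub L N) (t : N →ₗ[ℂ] N) :
    ∃ a ∈ Algebra.adjoin ℂ (L : Set (Module.End ℂ U)), ∀ n : N, a n.1 = (t n).1 := by
  set R := Algebra.adjoin ℂ (L : Set (Module.End ℂ U)) with hR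
  have hsm : ∀ (r : R) (v : U), r • v = r.1 v := fun r v => rfl
  let N' : Submodule R U :=
    { carrier := N
      zero_mem' := N.zero_mem
      add_mem' := fun {a b} ha hb => N.add_mem ha hb
      smul_mem' := fun r v hv => adj_stab hN.stab r.1 r.2 v hv }
  have hmem : ∀ u, u ∈ N' ↔ u ∈ N := fun u => Iff.rfl
  have hsimp : IsSimpleModule R N' := by
    rw [isSimpleModule_iff_isAtom]
    constructor
    · intro hb
      obtain ⟨n, hn, hn0⟩ := (Submodule.ne_bot_iff N).1 hN.ne
      have h1 : n ∈ N' := hn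
      rw [hb, Submodule.mem_bot] at h1
      exact hn0 h1
    · intro M hM
      by_contra hne
      let M' : Submodule ℂ U :=
        { carrier := M
          zero_mem' := M.zero_mem
          add_mem' := fun {a b} ha hb => M.add_mem ha hb
          smul_mem' := fun c v hv => by
            have h1 := M.smul_mem (algebraMap ℂ R c) hv
            have h2 : (algebraMap ℂ R c) • v = c • v := by
              rw [hsm]
              rfl
            rw [← h2]
            exact h1 }
      have hM' : ∀ u, u ∈ M' ↔ u ∈ M := fun u => Iff.rfl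
      have h1 : M' = N := hN.irr M' (fun u hu => hM.le hu) (fun x hx u hu =>
        M.smul_mem (⟨x, Algebra.subset_adjoin hx⟩ : R) hu) (by
          intro hb
          apply hne
          rw [eq_bot_iff]
          intro u hu
          have h1 : u ∈ M' := hu
          rw [hb, Submodule.mem_bot] at h1
          rw [h1]
          exact Submodule.zero_mem _)
      apply hM.ne
      ext u
      rw [← hM', h1, hmem]
  let f : Module.End (Module.End R N') N' :=
    { toFun := fun n => ⟨(t ⟨n.1, n.2⟩).1, (t ⟨n.1, n.2⟩).2⟩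
      map_add' := fun a b => by
        refine Subtype.ext ?_
        change (t (⟨a.1, a.2⟩ + ⟨b.1, b.2⟩)).1 = _
        rw [map_add]
        rfl
      map_smul' := fun g m => by
        -- Schur
        let G : N →ₗ[ℂ] N :=
          { toFun := fun n => ⟨(g ⟨n.1, n.2⟩).1, (g ⟨n.1, n.2⟩).2⟩
            map_add' := fun a b => by
              refine Subtype.ext ?_
              have h1 := g.map_add ⟨a.1, a.2⟩ ⟨b.1, b.2⟩
              exact congrArg Subtype.val h1
            map_smul' := fun c a => by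
              refine Subtype.ext ?_
              have h1 := g.map_smul (algebraMap ℂ R c) ⟨a.1, a.2⟩
              exact congrArg Subtype.val h1 }
        have hG : ∀ n : N, (G n).1 = (g ⟨n.1, n.2⟩).1 := fun n => rfl
        have : Nontrivial N := Submodule.nontrivial_iff_ne_bot.2 hN.ne
        obtain ⟨c, hc⟩ := Module.End.exists_eigenvalue (G : Module.End ℂ N)
        obtain ⟨v, hv⟩ := hc.exists_hasEigenvector
        let Q : Submodule ℂ U := (LinearMap.ker (G - c • LinearMap.id)).map N.subtype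
        have hQ : Q = N := by
          refine hN.irr Q (Submodule.map_subtype_le _ _) ?_ ?_
          · rintro x hx _ ⟨n, hn, rfl⟩
            refine ⟨⟨x n.1, hN.stab x hx _ n.2⟩, ?_, rfl⟩
            have h1 : G n = c • n := by
              have h2 := LinearMap.mem_ker.1 hn
              rw [LinearMap.sub_apply, sub_eq_zero] at h2
              exact h2
            rw [SetLike.mem_coe, LinearMap.mem_ker, LinearMap.sub_apply, sub_eq_zero]
            refine Subtype.ext ?_
            have h3 := g.map_smul (⟨x, Algebra.subset_adjoin hx⟩ : R) ⟨n.1, n.2⟩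
            have h4 : (G ⟨x n.1, hN.stab x hx _ n.2⟩).1 = x (G n).1 := congrArg Subtype.val h3
            rw [h4, h1]
            exact map_smul x c n.1
          · intro hb
            have h1 : v.1 ∈ Q := by
              refine ⟨v, ?_, rfl⟩
              rw [SetLike.mem_coe, LinearMap.mem_ker, LinearMap.sub_apply, sub_eq_zero]
              exact hv.apply_eq_smul
            rw [hb, Submodule.mem_bot] at h1
            exact hv.2 (Subtype.ext h1)
        have hg : ∀ n : N', (g n).1 = c • n.1 := by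
          intro n
          have h1 : n.1 ∈ Q := by
            rw [hQ]
            exact n.2
          obtain ⟨n', hn', h2⟩ := h1
          have h3 := LinearMap.mem_ker.1 hn'
          rw [LinearMap.sub_apply, sub_eq_zero] at h3
          have h4 : n' = ⟨n.1, n.2⟩ := Subtype.ext h2
          rw [h4] at h3
          exact congrArg Subtype.val h3
        refine Subtype.ext ?_
        have h1 : (g • m) = g m := rfl
        rw [h1]
        change (t ⟨(g m).1, (g m).2⟩).1 = (g ⟨(t ⟨m.1, m.2⟩).1, (t ⟨m.1, m.2⟩).2⟩).1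
        have h2 : (⟨(g m).1, (g m).2⟩ : N) = c • ⟨m.1, m.2⟩ := Subtype.ext (hg m)
        have h3 := hg ⟨(t ⟨m.1, m.2⟩).1, (t ⟨m.1, m.2⟩).2⟩
        rw [h2, map_smul, h3]
        rfl }
  have hf : ∀ n : N', (f n).1 = (t ⟨n.1, n.2⟩).1 := fun n => rfl
  obtain ⟨s, hs⟩ := Module.Finite.fg_top (R := ℂ) (M := N)
  classical
  obtain ⟨r, hr⟩ := jacobson_density f (s.image (fun n : N => (⟨n.1, n.2⟩ : N')))
  refine ⟨r.1, r.2, fun n => ?_⟩
  have hn : n ∈ Submodule.span ℂ (s : Set N) := by rw [hs]; exact Submodule.mem_top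
  induction hn using Submodule.span_induction with
  | mem x hx =>
    have h1 := hr ⟨x.1, x.2⟩ (Finset.mem_image.2 ⟨x, hx, rfl⟩)
    have h2 := congrArg Subtype.val h1
    rw [hf] at h2
    exact h2.symm
  | zero => rw [map_zero, Submodule.coe_zero, map_zero]
  | add a b _ _ ha hb => rw [Submodule.coe_add, map_add, ha, hb, map_add, Submodule.coe_add]
  | smul c a _ ha => rw [Submodule.coe_smul, map_smul, ha, map_smul, Submodule.coe_smul]

/-- Schur. -/
theorem schur_comL {N : Submodule ℂ U} (hN : IrrSub L N) {S : Module.End ℂ U} (hS : S ∈ comL L)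
    (hSN : ∀ n ∈ N, S n ∈ N) : ∃ c : ℂ, ∀ n ∈ N, S n = c • n := by
  have : Nontrivial N := Submodule.nontrivial_iff_ne_bot.2 hN.ne
  obtain ⟨c, hc⟩ := Module.End.exists_eigenvalue (S.restrict hSN : Module.End ℂ N)
  obtain ⟨v, hv⟩ := hc.exists_hasEigenvector
  let Q : Submodule ℂ U :=
    { carrier := {n | n ∈ N ∧ S n = c • n}
      zero_mem' := ⟨N.zero_mem, by rw [map_zero, smul_zero]⟩
      add_mem' := fun {a b} ha hb => ⟨N.add_mem ha.1 hb.1, by rw [map_add, ha.2, hb.2, smul_add]⟩
      smul_mem' := fun r a ha => ⟨N.smul_mem r ha.1, by rw [map_smul, ha.2, smul_comm]⟩ }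
  have hQ : Q = N := by
    refine hN.irr Q (fun u hu => hu.1) (fun x hx u hu => ⟨hN.stab x hx u hu.1, ?_⟩) ?_
    · have h1 : S (x u) = x (S u) := (LinearMap.congr_fun (hS x hx) u).symm
      rw [h1, hu.2, map_smul]
    · intro hb
      have h1 : v.1 ∈ Q := ⟨v.2, congrArg Subtype.val hv.apply_eq_smul⟩
      rw [hb, Submodule.mem_bot] at h1
      exact hv.2 (Subtype.ext h1)
  refine ⟨c, fun n hn => ?_⟩
  rw [← hQ] at hn
  exact hn.2

/-- Invariant forms on an irreducible subspace are proportional. -/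
theorem forms_scal {N : Submodule ℂ U} (hN : IrrSub L N)
    (skew : ∀ x ∈ L, ∀ u v, ω (x u) v + ω u (x v) = 0) {B : U →ₗ[ℂ] U →ₗ[ℂ] ℂ} {ε : ℂ}
    (F : Frm L N B ε) {T : Module.End ℂ U} (hT : T ∈ comL L) :
    ∃ c : ℂ, ∀ n ∈ N, ∀ n' ∈ N, ω n (T n') = c * B n n' := by
  obtain ⟨p, hp, hpN, hpB⟩ := projG hN.stab skew F.skew F.nd
  obtain ⟨c, hc⟩ := schur_comL hN (mul_comL hp hT) (fun n _ => hpN _)
  refine ⟨c, fun n hn n' hn' => ?_⟩
  have h1 := hpB n hn (T n')
  have h2 := hc n' hn'
  rw [Module.End.mul_apply] at h2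
  rw [h2, map_smul, smul_eq_mul] at h1
  exact h1.symm

/-- **Transvections.** -/
theorem THyp0.exists_trans (H : THyp0 L ω) {N : Submodule ℂ U} (hN : IrrSub L N)
    {B : U →ₗ[ℂ] U →ₗ[ℂ] ℂ} (F : Frm L N B (-1)) :
    ∃ e : Module.End ℂ U, (∀ k ∈ comL L, e * k = k * e) ∧
      (∀ u v, ω (e u) v + ω u (e v) = 0) ∧ e * e = 0 ∧ finrank ℂ (N.map e) = 1 := by
  obtain ⟨v0, hv0, hv00⟩ := (Submodule.ne_bot_iff N).1 hN.ne
  have hBv : B v0 v0 = 0 := by
    have h1 := F.sym v0 hv0 v0 hv0
    linear_combination (1 / 2) * h1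
  obtain ⟨n1, hn1, hn1B⟩ : ∃ n ∈ N, B v0 n ≠ 0 := by
    by_contra hcon
    push Not at hcon
    refine hv00 (F.nd v0 hv0 fun v hv => ?_)
    rw [F.sym v hv v0 hv0, hcon v hv, mul_zero]
  let t : N →ₗ[ℂ] N := ((B v0).comp N.subtype).smulRight ⟨v0, hv0⟩
  have ht : ∀ n : N, (t n).1 = B v0 n.1 • v0 := fun n => rfl
  obtain ⟨a, ha, hat'⟩ := burn hN t
  have hat : ∀ n ∈ N, a n = B v0 n • v0 := fun n hn => (hat' ⟨n, hn⟩).trans (ht ⟨n, hn⟩)
  have hPL := PK_L hN.stab
  have hPK := PK_K (L := L) (N := N)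
  obtain ⟨h1, h2⟩ := H.sup_oP (H.abs _ hPL hPK)
  have hc : IsCompl (PK L N) (oP ω (PK L N)) := by
    rw [isCompl_iff, disjoint_iff, codisjoint_iff]
    exact ⟨h2, h1⟩
  obtain ⟨π, hπ⟩ : ∃ π, π = (PK L N).projection _ hc := ⟨_, rfl⟩
  have hπP : ∀ u, π u ∈ PK L N := fun u => by
    rw [hπ]
    exact Submodule.projection_apply_mem hc u
  have hπ1 : ∀ u ∈ PK L N, π u = u := fun u hu => by
    rw [hπ]
    exact Submodule.projection_apply_of_mem_left hc hu
  have hπ2 : ∀ u ∈ oP ω (PK L N), π u = 0 := fun u hu => by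
    rw [hπ, Submodule.projection_apply_eq_zero_iff]
    exact hu
  have hdec : ∀ u, ∃ p ∈ PK L N, ∃ q ∈ oP ω (PK L N), u = p + q := by
    intro u
    have hu : u ∈ PK L N ⊔ oP ω (PK L N) := by rw [h1]; trivial
    obtain ⟨p, hp, q, hq, rfl⟩ := Submodule.mem_sup.1 hu
    exact ⟨p, hp, q, hq, rfl⟩
  have hπS : ∀ S : Module.End ℂ U, (∀ u ∈ PK L N, S u ∈ PK L N) →
      (∀ u ∈ oP ω (PK L N), S u ∈ oP ω (PK L N)) → π * S = S * π := by
    intro S hS1 hS2
    refine LinearMap.ext fun u => ?_
    obtain ⟨p, hp, q, hq, rfl⟩ := hdec u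
    rw [Module.End.mul_apply, Module.End.mul_apply, map_add, map_add, map_add, hπ1 _ (hS1 p hp),
      hπ2 _ (hS2 q hq), hπ1 p hp, hπ2 q hq, map_add, map_zero]
  have hπk : ∀ k ∈ comL L, π * k = k * π := fun k hk => hπS k (hPK k hk) (H.oP_K hPK k hk)
  have haP : ∀ u ∈ PK L N, a u ∈ PK L N := adj_stab hPL a ha
  have hπa : π * a = a * π := hπS a haP (adj_stab (H.oP_L hPL) a ha)
  have hak : ∀ k ∈ comL L, a * k = k * a := fun k hk => adj_comm hk a ha
  -- the orthogonality
  have ho : ∀ p ∈ PK L N, ∀ q ∈ oP ω (PK L N), ω p q = 0 := fun p hp q hq => hq p hp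
  have ho' : ∀ p ∈ PK L N, ∀ q ∈ oP ω (PK L N), ω q p = 0 := fun p hp q hq => by
    rw [H.alt, ho p hp q hq, neg_zero]
  -- the values on the isotypic component
  have hkn : ∀ k ∈ comL L, ∀ n ∈ N, a (k n) = B v0 n • k v0 := by
    intro k hk n hn
    have h3 : a (k n) = k (a n) := LinearMap.congr_fun (hak k hk) n
    rw [h3, hat n hn, map_smul]
  have hskew : ∀ p ∈ PK L N, ∀ q ∈ PK L N, ω (a p) q + ω p (a q) = 0 := by
    intro p hp q hq
    unfold PK at hp
    induction hp using Submodule.span_induction with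
    | mem p hp =>
      obtain ⟨k, hk, n, hn, rfl⟩ := hp
      unfold PK at hq
      induction hq using Submodule.span_induction with
      | mem q hq =>
        obtain ⟨k', hk', n', hn', rfl⟩ := hq
        obtain ⟨k1, hk1, hadj⟩ := H.adj hk
        obtain ⟨c, hc⟩ := forms_scal hN H.skew F (mul_comL hk1 hk')
        have hω : ∀ n ∈ N, ∀ n' ∈ N, ω (k n) (k' n') = c * B n n' := by
          intro n hn n' hn'
          rw [hadj]
          exact hc n hn n' hn'
        rw [hkn k hk n hn, hkn k' hk' n' hn', map_smul, LinearMap.smul_apply, map_smul,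
          hω v0 hv0 n' hn', hω n hn v0 hv0, smul_eq_mul, smul_eq_mul, F.sym n hn v0 hv0]
        ring
      | zero => simp only [map_zero, add_zero]
      | add q r _ _ hq hr =>
        simp only [map_add]
        linear_combination hq + hr
      | smul s q _ hq =>
        simp only [map_smul, smul_eq_mul]
        linear_combination s * hq
    | zero => simp only [map_zero, LinearMap.zero_apply, add_zero]
    | add q r _ _ hq hr =>
      simp only [map_add, LinearMap.add_apply]
      linear_combination hq + hr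
    | smul s q _ hq =>
      simp only [map_smul, LinearMap.smul_apply, smul_eq_mul]
      linear_combination s * hq
  have haa : ∀ p ∈ PK L N, a (a p) = 0 := by
    intro p hp
    unfold PK at hp
    induction hp using Submodule.span_induction with
    | mem p hp =>
      obtain ⟨k, hk, n, hn, rfl⟩ := hp
      rw [hkn k hk n hn, map_smul, hkn k hk v0 hv0, hBv, zero_smul, smul_zero]
    | zero => rw [map_zero, map_zero]
    | add q r _ _ hq hr => rw [map_add, map_add, hq, hr, add_zero]
    | smul s q _ hq => rw [map_smul, map_smul, hq, smul_zero]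
  refine ⟨a * π, ?_, ?_, ?_, ?_⟩
  · intro k hk
    rw [mul_assoc, hπk k hk, ← mul_assoc, hak k hk, mul_assoc]
  · intro u v
    obtain ⟨p, hp, q, hq, rfl⟩ := hdec u
    obtain ⟨p', hp', q', hq', rfl⟩ := hdec v
    rw [Module.End.mul_apply, Module.End.mul_apply, map_add π, map_add π, hπ1 p hp, hπ2 q hq,
      hπ1 p' hp', hπ2 q' hq', add_zero, add_zero, map_add (ω (a p)), map_add ω, LinearMap.add_apply,
      ho _ (haP p hp) q' hq', ho' _ (haP p' hp') q hq, add_zero, add_zero]
    exact hskew p hp p' hp'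
  · refine LinearMap.ext fun u => ?_
    have h3 : π (a (π u)) = a (π u) := hπ1 _ (haP _ (hπP u))
    rw [Module.End.mul_apply, Module.End.mul_apply, Module.End.mul_apply, h3, haa _ (hπP u)]
    rfl
  · have h3 : N.map (a * π) = Submodule.span ℂ {v0} := by
      apply le_antisymm
      · rintro _ ⟨n, hn, rfl⟩
        rw [Module.End.mul_apply, hπ1 n (le_PK hn), hat n hn]
        exact Submodule.smul_mem _ _ (Submodule.mem_span_singleton_self _)
      · rw [Submodule.span_singleton_le_iff_mem]
        refine ⟨(B v0 n1)⁻¹ • n1, N.smul_mem _ hn1, ?_⟩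
        rw [map_smul, Module.End.mul_apply, hπ1 n1 (le_PK hn1), hat n1 hn1, smul_smul,
          inv_mul_cancel₀ hn1B, one_smul]
    rw [h3, finrank_span_singleton hv00]

end Pool.Agent.R912
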