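import Mathlib
import Pool.Agent.R912.T.Trans
import Pool.Agent.R912.T.Jor
import Pool.Agent.R912.Q.Main

set_option autoImplicit false
set_option linter.unusedSectionVars false

/-!
# Representations of a group all of whose strongly irreducible subspaces are symplectic
-/

open Module Matrix

noncomputable section

namespace Pool.Agent.R912.T

open Pool.Agent.R912 Pool.Agent.H204R3.SP Pool.Agent.H204R3.GP Pool.Agent.W522.U

attribute [local instance 100] LieRing.ofAssociativeRing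

variable {X : Type} [AddCommGroup X] [Module ℂ X] [FiniteDimensional ℂ X] {Γ : Type} [Group Γ]

/-- The hypotheses. -/
structure GHyp (R : Representation ℂ Γ X) (χ : Γ →* ℂ) (ω : X →ₗ[ℂ] X →ₗ[ℂ] ℂ)
    (Γ₀ : Subgroup Γ) : Prop where
  fin : Γ₀.FiniteIndex
  neat : ∀ g ∈ Γ₀, R g ∈ Algebra.adjoin ℂ (lieT R χ : Set (Module.End ℂ X))
  proj : HasProj R
  alt : ∀ u v, ω u v = -ω v u
  nd : ∀ u, (∀ v, ω v u = 0) → u = 0
  sim : ∀ g u v, ω (R g u) (R g v) = χ g * ω u v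
  symp : ∀ U : Submodule ℂ X, SI R U → ∃ Δ : Subgroup Γ, Δ.FiniteIndex ∧
    ∃ B : X →ₗ[ℂ] X →ₗ[ℂ] ℂ, (∃ u ∈ U, ∃ v ∈ U, B u v ≠ 0) ∧ (∀ u ∈ U, B u u = 0) ∧
      ∀ g ∈ Δ, ∀ u ∈ U, ∀ v ∈ U, B (R g u) (R g v) = χ g * B u v

/-- Representation of forms. -/
theorem rep' {ω : X →ₗ[ℂ] X →ₗ[ℂ] ℂ} (nd : ∀ u, (∀ v, ω v u = 0) → u = 0)
    (β : X →ₗ[ℂ] X →ₗ[ℂ] ℂ) : ∃ T : Module.End ℂ X, ∀ u v, β u v = ω u (T v) := by
  have hinj : Function.Injective (ω.flip : X →ₗ[ℂ] Module.Dual ℂ X) := by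
    rw [injective_iff_map_eq_zero]
    intro u hu
    exact nd u fun v => LinearMap.congr_fun hu v
  let E : X ≃ₗ[ℂ] Module.Dual ℂ X := LinearMap.linearEquivOfInjective ω.flip hinj
    (Subspace.dual_finrank_eq).symm
  refine ⟨E.symm.toLinearMap ∘ₗ β.flip, fun u v => ?_⟩
  have h1 : E (E.symm (β.flip v)) = β.flip v := E.apply_symm_apply _
  exact (LinearMap.congr_fun h1 u).symm

namespace GHyp

variable {R : Representation ℂ Γ X} {χ : Γ →* ℂ} {ω : X →ₗ[ℂ] X →ₗ[ℂ] ℂ} {Γ₀ : Subgroup Γ}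
  (H : GHyp R χ ω Γ₀)
include H

theorem skew : ∀ x ∈ lieT R χ, ∀ u v, ω (x u) v + ω u (x v) = 0 := fun _ hx u v =>
  lieT_sp R χ ω H.sim hx u v

/-- the commutant of the Lie algebra -/
theorem com1 {Δ : Subgroup Γ} (hΔ : Δ.FiniteIndex) {P : Module.End ℂ X}
    (hP : ∀ s ∈ Δ, ∀ v, P (R s v) = R s (P v)) : P ∈ comL (lieT R χ) := by
  intro x hx
  refine LinearMap.ext fun v => ?_
  rw [Module.End.mul_apply, Module.End.mul_apply, ← sub_eq_zero]
  refine H.nd _ fun u => ?_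
  have hB : IsTate2 R χ (ω.compl₂ P) := by
    refine ⟨Δ, hΔ, fun s hs u v => ?_⟩
    rw [LinearMap.compl₂_apply, LinearMap.compl₂_apply, hP s hs, H.sim]
  have h1 := lieT_bil R χ hB hx u v
  rw [LinearMap.compl₂_apply, LinearMap.compl₂_apply] at h1
  have h2 := H.skew x hx u (P v)
  rw [map_sub]
  linear_combination h2 - h1

theorem com2 {P : Module.End ℂ X} (hP : P ∈ comL (lieT R χ)) {g : Γ} (hg : g ∈ Γ₀) (v : X) :
    P (R g v) = R g (P v) :=
  (LinearMap.congr_fun (adj_comm hP (R g) (H.neat g hg)) v).symm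

theorem stab1 {M : Submodule ℂ X} (hM : ∀ x ∈ lieT R χ, ∀ u ∈ M, x u ∈ M) :
    ∀ g ∈ Γ₀, ∀ u ∈ M, R g u ∈ M := fun g hg => adj_stab hM (R g) (H.neat g hg)

theorem pot {M : Submodule ℂ X} (hM : ∀ x ∈ lieT R χ, ∀ u ∈ M, x u ∈ M) : Pot R M :=
  ⟨Γ₀, H.fin, H.stab1 hM⟩

theorem stab2 {M : Submodule ℂ X} (hM : Pot R M) : ∀ x ∈ lieT R χ, ∀ u ∈ M, x u ∈ M := by
  obtain ⟨Δ, hΔ, h⟩ := hM
  obtain ⟨P, hP1, hP2, hP3⟩ := H.proj Δ hΔ M h
  have hP := H.com1 hΔ hP3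
  intro x hx u hu
  have h1 : x (P u) = P (x u) := LinearMap.congr_fun (hP x hx) u
  rw [hP2 u hu] at h1
  rw [h1]
  exact hP1 _

theorem projL {M : Submodule ℂ X} (hM : ∀ x ∈ lieT R χ, ∀ u ∈ M, x u ∈ M) :
    ∃ P ∈ comL (lieT R χ), (∀ v, P v ∈ M) ∧ ∀ u ∈ M, P u = u := by
  obtain ⟨P, hP1, hP2, hP3⟩ := H.proj Γ₀ H.fin M (H.stab1 hM)
  exact ⟨P, H.com1 H.fin hP3, hP1, hP2⟩

theorem irr_iff {N : Submodule ℂ X} : IrrSub (lieT R χ) N ↔ SI R N := by
  constructor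
  · intro hN
    refine ⟨hN.ne, H.pot hN.stab, fun W hW hWp => ?_⟩
    by_cases h0 : W = ⊥
    · exact Or.inl h0
    · exact Or.inr (hN.irr W hW (H.stab2 hWp) h0)
  · rintro ⟨h1, h2, h3⟩
    exact ⟨h1, H.stab2 h2, fun P hP hPs hP0 => (h3 P hP (H.pot hPs)).resolve_left hP0⟩

/-- the symplectic form on an irreducible subspace -/
theorem exists_symp {N : Submodule ℂ X} (hN : IrrSub (lieT R χ) N) :
    ∃ T ∈ comL (lieT R χ), Frm (lieT R χ) N (ω.compl₂ T) (-1) := by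
  obtain ⟨Δ, hΔ, B, ⟨u0, hu0, v0, hv0, hB0⟩, hB1, hB2⟩ := H.symp N (H.irr_iff.1 hN)
  obtain ⟨p, hp, hpN, hpn⟩ := H.projL hN.stab
  obtain ⟨T, hT⟩ := rep' H.nd (B.compl₁₂ p p)
  have hBN : ∀ u ∈ N, ∀ v ∈ N, ω u (T v) = B u v := by
    intro u hu v hv
    rw [← hT, LinearMap.compl₁₂_apply, hpn u hu, hpn v hv]
  have hTate : IsTate2 R χ (B.compl₁₂ p p) := by
    have := H.fin
    refine ⟨Δ ⊓ Γ₀, inferInstance, fun s hs u v => ?_⟩
    rw [LinearMap.compl₁₂_apply, LinearMap.compl₁₂_apply, H.com2 hp hs.2, H.com2 hp hs.2,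
      hB2 s hs.1 _ (hpN u) _ (hpN v)]
  have hinv : ∀ x ∈ lieT R χ, ∀ u v, ω (x u) (T v) + ω u (T (x v)) = 0 := by
    intro x hx u v
    rw [← hT, ← hT]
    exact lieT_bil R χ hTate hx u v
  have hTc : T ∈ comL (lieT R χ) := by
    intro x hx
    refine LinearMap.ext fun v => ?_
    rw [Module.End.mul_apply, Module.End.mul_apply, ← sub_eq_zero]
    refine H.nd _ fun u => ?_
    rw [map_sub]
    have h1 := hinv x hx u v
    have h2 := H.skew x hx u (T v)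
    linear_combination h2 - h1
  refine ⟨T, hTc, ⟨?_, ?_, ?_⟩⟩
  · intro x hx u _ v _
    rw [LinearMap.compl₂_apply, LinearMap.compl₂_apply]
    exact hinv x hx u v
  · let Rd : Submodule ℂ X :=
      { carrier := {u | u ∈ N ∧ ∀ v ∈ N, ω v (T u) = 0}
        zero_mem' := ⟨N.zero_mem, fun v _ => by rw [map_zero, map_zero]⟩
        add_mem' := fun {a b} ha hb => ⟨N.add_mem ha.1 hb.1, fun v hv => by
          rw [map_add, map_add, ha.2 v hv, hb.2 v hv, add_zero]⟩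
        smul_mem' := fun c a ha => ⟨N.smul_mem c ha.1, fun v hv => by
          rw [map_smul, map_smul, ha.2 v hv, smul_zero]⟩ }
    by_cases hR : Rd = ⊥
    · intro u hu h1
      have h2 : u ∈ Rd := ⟨hu, fun v hv => by
        have h3 := h1 v hv
        rwa [LinearMap.compl₂_apply] at h3⟩
      rw [hR] at h2
      exact h2
    · exfalso
      have h1 := hN.irr Rd (fun u hu => hu.1) (fun x hx u hu => ⟨hN.stab x hx u hu.1,
        fun v hv => by
          have h2 := hinv x hx v u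
          rw [hu.2 _ (hN.stab x hx v hv), zero_add] at h2
          exact h2⟩) hR
      have h2 : v0 ∈ Rd := by rw [h1]; exact hv0
      apply hB0
      rw [← hBN u0 hu0 v0 hv0]
      exact h2.2 u0 hu0
  · intro u hu v hv
    rw [LinearMap.compl₂_apply, LinearMap.compl₂_apply, hBN u hu v hv, hBN v hv u hu]
    have h1 := hB1 (u + v) (N.add_mem hu hv)
    simp only [map_add, LinearMap.add_apply, hB1 u hu, hB1 v hv] at h1
    linear_combination h1

theorem thyp0 : THyp0 (lieT R χ) ω where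
  br := fun _ hx _ hy => lieT_bracket R χ hx hy
  skew := H.skew
  alt := H.alt
  nd := H.nd
  abs := by
    intro P hP1 hP2
    let Rd : Submodule ℂ X :=
      { carrier := {u | u ∈ P ∧ ∀ v ∈ P, ω v u = 0}
        zero_mem' := ⟨P.zero_mem, fun v _ => by rw [map_zero]⟩
        add_mem' := fun {a b} ha hb => ⟨P.add_mem ha.1 hb.1, fun v hv => by
          rw [map_add, ha.2 v hv, hb.2 v hv, add_zero]⟩
        smul_mem' := fun c a ha => ⟨P.smul_mem c ha.1, fun v hv => by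
          rw [map_smul, ha.2 v hv, smul_zero]⟩ }
    have hRd : ∀ x ∈ lieT R χ, ∀ u ∈ Rd, x u ∈ Rd := fun x hx u hu => ⟨hP1 x hx u hu.1,
      fun v hv => by
        have h2 := H.skew x hx v u
        rw [hu.2 _ (hP1 x hx v hv), zero_add] at h2
        exact h2⟩
    by_cases hR : Rd = ⊥
    · intro u hu h1
      have h2 : u ∈ Rd := ⟨hu, h1⟩
      rw [hR] at h2
      exact h2
    · exfalso
      obtain ⟨N, hN, hNle⟩ := exists_irrSub_le hRd hR
      obtain ⟨T, hT, F⟩ := H.exists_symp hN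
      obtain ⟨n, hn, hn0⟩ := (Submodule.ne_bot_iff N).1 hN.ne
      apply hn0
      refine F.nd n hn fun v hv => ?_
      rw [LinearMap.compl₂_apply, H.alt, (hNle hv).2 _ (hP2 T hT n (hNle hn).1), neg_zero]

theorem thyp : THyp (lieT R χ) ω where
  toTHyp0 := H.thyp0
  even' := by
    intro N hN
    obtain ⟨T, hT, F⟩ := H.exists_symp hN
    let β : N →ₗ[ℂ] N →ₗ[ℂ] ℂ := (LinearMap.lcomp ℂ ℂ N.subtype) ∘ₗ (ω.compl₂ T) ∘ₗ N.subtype
    have hβ : ∀ u v : N, β u v = (ω.compl₂ T) u.1 v.1 := fun u v => rfl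
    refine even_of_alt β (fun u v => ?_) fun u hu => ?_
    · rw [hβ, hβ, F.sym _ u.2 _ v.2]
      ring
    · refine Subtype.ext (F.nd _ u.2 fun v hv => ?_)
      exact hu ⟨v, hv⟩

end GHyp

/-! ## The group that fixes the form -/

section group

variable (K : Submodule ℂ (Module.End ℂ X)) (ω : X →ₗ[ℂ] X →ₗ[ℂ] ℂ)
  (ψ : MultilinearMap ℂ (fun _ : Fin 2 × Fin 2 => X) ℂ)

/-- The similitudes that commute with `K` and act on `ψ` through the square of the multiplier. -/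
def Gp : Subgroup ((X ≃ₗ[ℂ] X) × ℂˣ) where
  carrier := {p | (∀ u v, ω (p.1 u) (p.1 v) = (p.2 : ℂ) * ω u v) ∧
    (∀ k ∈ K, ∀ v, k (p.1 v) = p.1 (k v)) ∧
    ∀ v : Fin 2 × Fin 2 → X, ψ (fun l => p.1 (v l)) = (p.2 : ℂ) ^ 2 * ψ v}
  one_mem' := by
    refine ⟨fun u v => ?_, fun k _ v => rfl, fun v => ?_⟩
    · change ω u v = ((1 : ℂˣ) : ℂ) * ω u v
      rw [Units.val_one, one_mul]
    · change ψ v = ((1 : ℂˣ) : ℂ) ^ 2 * ψ v
      rw [Units.val_one, one_pow, one_mul]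
  mul_mem' := by
    rintro ⟨a, c⟩ ⟨b, d⟩ ⟨h1, h2, h3⟩ ⟨h1', h2', h3'⟩
    simp only at h1 h2 h3 h1' h2' h3'
    refine ⟨fun u v => ?_, fun k hk v => ?_, fun v => ?_⟩
    · change ω (a (b u)) (a (b v)) = ((c * d : ℂˣ) : ℂ) * ω u v
      rw [h1, h1', Units.val_mul, mul_assoc]
    · change k (a (b v)) = a (b (k v))
      rw [h2 k hk, h2' k hk]
    · change ψ (fun l => a (b (v l))) = ((c * d : ℂˣ) : ℂ) ^ 2 * ψ v
      rw [h3 (fun l => b (v l)), h3' v, Units.val_mul]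
      ring
  inv_mem' := by
    rintro ⟨a, c⟩ ⟨h1, h2, h3⟩
    simp only at h1 h2 h3
    have hc : (c : ℂ) ≠ 0 := c.ne_zero
    refine ⟨fun u v => ?_, fun k hk v => ?_, fun v => ?_⟩
    · change ω (a.symm u) (a.symm v) = ((c⁻¹ : ℂˣ) : ℂ) * ω u v
      have h4 := h1 (a.symm u) (a.symm v)
      rw [a.apply_symm_apply, a.apply_symm_apply] at h4
      rw [h4, Units.val_inv_eq_inv_val, ← mul_assoc, inv_mul_cancel₀ hc, one_mul]
    · change k (a.symm v) = a.symm (k v)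
      apply a.injective
      rw [← h2 k hk, a.apply_symm_apply, a.apply_symm_apply]
    · change ψ (fun l => a.symm (v l)) = ((c⁻¹ : ℂˣ) : ℂ) ^ 2 * ψ v
      have h4 := h3 (fun l => a.symm (v l))
      simp only [a.apply_symm_apply] at h4
      rw [h4, Units.val_inv_eq_inv_val, ← mul_assoc, ← mul_pow, inv_mul_cancel₀ hc, one_pow, one_mul]

/-- The representation of the group. -/
def Gr : Representation ℂ (Gp K ω ψ) X where
  toFun p := p.1.1.toLinearMap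
  map_one' := rfl
  map_mul' _ _ := rfl

theorem Gr_apply (p : Gp K ω ψ) (v : X) : Gr K ω ψ p v = p.1.1 v := rfl

/-- The multiplier. -/
def Gc : Gp K ω ψ →* ℂ where
  toFun p := (p.1.2 : ℂ)
  map_one' := rfl
  map_mul' _ _ := rfl

theorem Gc_apply (p : Gp K ω ψ) : Gc K ω ψ p = (p.1.2 : ℂ) := rfl

end group

/-- A group acting. -/
def JJ' (R : Representation ℂ Γ X) (χ : Γ →* ℂ) : Γ →* (X ≃ₗ[ℂ] X) × ℂˣ :=
  MonoidHom.prod ((LinearMap.GeneralLinearGroup.generalLinearEquiv ℂ X).toMonoidHom.comp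
    (MonoidHom.toHomUnits R)) (MonoidHom.toHomUnits χ)

theorem JJ'_fst (R : Representation ℂ Γ X) (χ : Γ →* ℂ) (g : Γ) (v : X) :
    (JJ' R χ g).1 v = R g v := rfl

theorem JJ'_snd (R : Representation ℂ Γ X) (χ : Γ →* ℂ) (g : Γ) :
    ((JJ' R χ g).2 : ℂ) = χ g := rfl

namespace GHyp

variable {R : Representation ℂ Γ X} {χ : Γ →* ℂ} {ω : X →ₗ[ℂ] X →ₗ[ℂ] ℂ} {Γ₀ : Subgroup Γ}
  (H : GHyp R χ ω Γ₀) {ψ : MultilinearMap ℂ (fun _ : Fin 2 × Fin 2 => X) ℂ}
  (hψ : IsTate R χ 2 ψ)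
include H

include hψ in
theorem pull (Δ' : Subgroup (Gp (comL (lieT R χ)) ω ψ)) (hΔ' : Δ'.FiniteIndex) :
    ∃ Δ : Subgroup Γ, Δ.FiniteIndex ∧ ∀ g ∈ Δ, ∃ p ∈ Δ', (∀ v, Gr _ ω ψ p v = R g v) ∧
      Gc _ ω ψ p = χ g := by
  obtain ⟨Δ, hΔ, hψ⟩ := hψ
  have := H.fin
  obtain ⟨Γ₁, hΓ₁⟩ : ∃ Γ₁, Γ₁ = (Gp (comL (lieT R χ)) ω ψ).comap (JJ' R χ) := ⟨_, rfl⟩
  have hle : Δ ⊓ Γ₀ ≤ Γ₁ := by
    rintro g ⟨hg, hg'⟩
    rw [hΓ₁, Subgroup.mem_comap]
    exact ⟨fun u v => H.sim g u v, fun k hk v => H.com2 hk hg' v, fun v => hψ g hg v⟩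
  have hfin : Γ₁.FiniteIndex := Subgroup.finiteIndex_of_le hle
  have hmem : ∀ g ∈ Γ₁, JJ' R χ g ∈ Gp (comL (lieT R χ)) ω ψ := by
    intro g hg
    rw [hΓ₁] at hg
    exact hg
  let j : Γ₁ →* Gp (comL (lieT R χ)) ω ψ :=
    ((JJ' R χ).comp Γ₁.subtype).codRestrict _ (fun g => hmem g.1 g.2)
  have hj : ∀ g : Γ₁, (j g).1 = JJ' R χ g.1 := fun g => rfl
  refine ⟨(Δ'.comap j).map Γ₁.subtype, ⟨?_⟩, ?_⟩
  · rw [Subgroup.index_map_subtype]
    refine mul_ne_zero ?_ hfin.index_ne_zero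
    rw [Subgroup.index_comap]
    exact (inferInstance : (Δ'.subgroupOf j.range).FiniteIndex).index_ne_zero
  · rintro _ ⟨g, hg, rfl⟩
    refine ⟨j g, hg, fun v => ?_, ?_⟩
    · rw [Gr_apply, hj]
      exact JJ'_fst R χ g.1 v
    · rw [Gc_apply, hj]
      exact JJ'_snd R χ g.1

include hψ in
theorem pot_pull {M : Submodule ℂ X} (hM : Pot (Gr (comL (lieT R χ)) ω ψ) M) :
    ∀ x ∈ lieT R χ, ∀ u ∈ M, x u ∈ M := by
  obtain ⟨Δ', hΔ', h⟩ := hM
  obtain ⟨Δ, hΔ, h1⟩ := H.pull hψ Δ' hΔ'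
  refine H.stab2 ⟨Δ, hΔ, fun g hg u hu => ?_⟩
  obtain ⟨p, hp, hp1, -⟩ := h1 g hg
  rw [← hp1]
  exact h p hp u hu

theorem pot_push {M : Submodule ℂ X} (hM : ∀ x ∈ lieT R χ, ∀ u ∈ M, x u ∈ M) :
    Pot (Gr (comL (lieT R χ)) ω ψ) M := by
  obtain ⟨P, hP, hP1, hP2⟩ := H.projL hM
  refine ⟨⊤, inferInstance, fun p _ u hu => ?_⟩
  have h1 := p.2.2.1 P hP u
  rw [hP2 u hu] at h1
  rw [Gr_apply, ← h1]
  exact hP1 _

include hψ in
theorem proj_pull : HasProj (Gr (comL (lieT R χ)) ω ψ) := by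
  intro Δ' hΔ' U hU
  obtain ⟨P, hP, hP1, hP2⟩ := H.projL (H.pot_pull hψ ⟨Δ', hΔ', hU⟩)
  exact ⟨P, hP1, hP2, fun p _ v => p.2.2.1 P hP v⟩

include hψ in
theorem irr_pull {N : Submodule ℂ X} (hN : SI (Gr (comL (lieT R χ)) ω ψ) N) :
    IrrSub (lieT R χ) N := by
  obtain ⟨h1, h2, h3⟩ := hN
  exact ⟨h1, H.pot_pull hψ h2, fun P hP hPs hP0 => (h3 P hP (H.pot_push hPs)).resolve_left hP0⟩

theorem du_pull {N : Submodule ℂ X} (hN : IrrSub (lieT R χ) N) :
    Du (Gr (comL (lieT R χ)) ω ψ) (Gc _ ω ψ) N N := by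
  obtain ⟨T, hT, F⟩ := H.exists_symp hN
  refine ⟨⊤, inferInstance, ω.compl₂ T, ?_, fun p _ u _ v _ => ?_⟩
  · by_contra hcon
    push Not at hcon
    obtain ⟨n, hn, hn0⟩ := (Submodule.ne_bot_iff N).1 hN.ne
    exact hn0 (F.nd n hn fun v hv => hcon v hv n hn)
  · rw [LinearMap.compl₂_apply, LinearMap.compl₂_apply, Gr_apply, Gr_apply, p.2.2.1 T hT v]
    exact p.2.1 u (T v)

end GHyp

/-- The exponential of a square-zero operator that kills a form fixes it. -/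
theorem exp_fix {ψ : Q4 X} {e : Module.End ℂ X} (he : e * e = 0) (h : Kill4 ⊤ ψ e) (a b c d : X) :
    ψ (a + e a) (b + e b) (c + e c) (d + e d) = ψ a b c d := by
  have hee : ∀ u, e (e u) = 0 := fun u => LinearMap.congr_fun he u
  have hk : ∀ a b c d, ψ (e a) b c d + ψ a (e b) c d + ψ a b (e c) d + ψ a b c (e d) = 0 :=
    fun a b c d => h a trivial b trivial c trivial d trivial
  have z : ∀ a b c d, ψ (e (e a)) b c d = 0 ∧ ψ a (e (e b)) c d = 0 ∧ ψ a b (e (e c)) d = 0 ∧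
      ψ a b c (e (e d)) = 0 := fun a b c d => by
    simp only [hee, map_zero, LinearMap.zero_apply, and_self]
  have h1 := hk a b c d
  have a1 := hk (e a) b c d
  have a2 := hk a (e b) c d
  have a3 := hk a b (e c) d
  have a4 := hk a b c (e d)
  have b12 := hk (e a) (e b) c d
  have b13 := hk (e a) b (e c) d
  have b14 := hk (e a) b c (e d)
  have b23 := hk a (e b) (e c) d
  have b24 := hk a (e b) c (e d)
  have b34 := hk a b (e c) (e d)
  have c1 := hk a (e b) (e c) (e d)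
  have c2 := hk (e a) b (e c) (e d)
  have c3 := hk (e a) (e b) c (e d)
  have c4 := hk (e a) (e b) (e c) d
  simp only [hee, map_zero, LinearMap.zero_apply, zero_add, add_zero] at a1 a2 a3 a4 b12 b13 b14 b23 b24 b34 c1 c2 c3 c4
  simp only [map_add, LinearMap.add_apply]
  linear_combination h1 + (1 / 2) * (a1 + a2 + a3 + a4) +
    (1 / 3) * (b12 + b13 + b14 + b23 + b24 + b34) + (1 / 4) * (c1 + c2 + c3 + c4)

namespace GHyp

variable {R : Representation ℂ Γ X} {χ : Γ →* ℂ} {ω : X →ₗ[ℂ] X →ₗ[ℂ] ℂ} {Γ₀ : Subgroup Γ}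
  (H : GHyp R χ ω Γ₀) {ψ : MultilinearMap ℂ (fun _ : Fin 2 × Fin 2 => X) ℂ}
  (hψ : IsTate R χ 2 ψ)
include H

/-- **The theorem over the complex numbers.** -/
theorem main (hX : finrank ℂ X = 8) (hψ : IsTate R χ 2 ψ) (hA : Alt4 (toQ4 ψ)) :
    ψ ∈ Submodule.span ℂ (PT R χ 2) := by
  have hnt : Nontrivial X := by
    apply Module.nontrivial_of_finrank_pos (R := ℂ)
    rw [hX]
    norm_num
  -- the operators that kill the form
  have hkill : ∀ e : Module.End ℂ X, (∀ k ∈ comL (lieT R χ), e * k = k * e) →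
      (∀ u v, ω (e u) v + ω u (e v) = 0) → Kill4 ⊤ (toQ4 ψ) e := by
    intro e he1 he2
    refine H.thyp.main hX hA (fun x hx => (kills_iff_kill4 ψ x).1 (hx 2 ψ hψ)) ?_ ?_ he2
    · intro P hP u hu
      obtain ⟨p, hp, hp1, hp2⟩ := H.projL hP
      have h1 : e (p u) = p (e u) := LinearMap.congr_fun (he1 p hp) u
      rw [hp2 u hu] at h1
      rw [h1]
      exact hp1 _
    · intro k hk
      exact he1 k hk
  have hmain : ψ ∈ Submodule.span ℂ (PT (Gr (comL (lieT R χ)) ω ψ) (Gc _ ω ψ) 2) := by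
    refine main_X (R := Gr (comL (lieT R χ)) ω ψ) (χ := Gc (comL (lieT R χ)) ω ψ)
      (H.proj_pull hψ) ω ?_ (fun p u v => p.2.1 u v) ?_ ?_ ?_ ?_ ψ ?_
    · intro u hu
      refine H.nd u fun v => ?_
      rw [H.alt, hu, neg_zero]
    · intro U hU _
      have hN := H.irr_pull hψ hU
      obtain ⟨T, hT, F⟩ := H.exists_symp hN
      obtain ⟨e, he1, he2, he3, he4⟩ := H.thyp0.exists_trans hN F
      have hk := hkill e he1 he2
      have hee : ∀ u, e (e u) = 0 := fun u => LinearMap.congr_fun he3 u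
      let E : X ≃ₗ[ℂ] X := LinearEquiv.ofLinearMap (1 + e) (1 - e)
        (by
          refine LinearMap.ext fun u => ?_
          change (u - e u) + e (u - e u) = u
          rw [map_sub, hee]
          abel)
        (by
          refine LinearMap.ext fun u => ?_
          change (u + e u) - e (u + e u) = u
          rw [map_add, hee]
          abel)
      have hE : ∀ u, E u = u + e u := fun u => rfl
      have hmem : (E, (1 : ℂˣ)) ∈ Gp (comL (lieT R χ)) ω ψ := by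
        refine ⟨fun u v => ?_, fun k hk v => ?_, fun v => ?_⟩
        · change ω (E u) (E v) = ((1 : ℂˣ) : ℂ) * ω u v
          rw [hE, hE, Units.val_one, one_mul]
          have h1 := he2 u v
          have h2 := he2 u (e v)
          rw [hee, map_zero, add_zero] at h2
          simp only [map_add, LinearMap.add_apply]
          linear_combination h1 + h2
        · change k (E v) = E (k v)
          rw [hE, hE, map_add]
          have h1 : e (k v) = k (e v) := LinearMap.congr_fun (he1 k hk) v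
          rw [h1]
        · change ψ (fun l => E (v l)) = ((1 : ℂˣ) : ℂ) ^ 2 * ψ v
          rw [Units.val_one, one_pow, one_mul]
          have h1 := exp_fix he3 hk (v (0, 0)) (v (0, 1)) (v (1, 0)) (v (1, 1))
          rw [toQ4_apply, toQ4_apply, vec4_eta] at h1
          rw [← h1]
          congr 1
          funext l
          revert l
          exact forall4 rfl rfl rfl rfl
      refine ⟨⟨(E, 1), hmem⟩, ?_, ?_⟩
      · have h1 : Gr (comL (lieT R χ)) ω ψ ⟨(E, 1), hmem⟩ - 1 = e := by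
          refine LinearMap.ext fun u => ?_
          rw [LinearMap.sub_apply, Gr_apply, Module.End.one_apply]
          change (u + e u) - u = e u
          abel
        rw [h1, he3]
      · have h1 : Gr (comL (lieT R χ)) ω ψ ⟨(E, 1), hmem⟩ - 1 = e := by
          refine LinearMap.ext fun u => ?_
          rw [LinearMap.sub_apply, Gr_apply, Module.End.one_apply]
          change (u + e u) - u = e u
          abel
        rw [h1, he4]
    · intro U hU h1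
      exfalso
      have h2 := H.thyp.two_le (H.irr_pull hψ hU)
      omega
    · intro U U' hU _ _ hdu
      exact absurd (H.du_pull (H.irr_pull hψ hU)) hdu
    · intro s U hU hdu _ Δ hΔ h a _
      funext i
      exact absurd (H.du_pull (H.irr_pull hψ (hU i))) (hdu i i)
    · exact ⟨⊤, inferInstance, fun p _ v => p.2.2.2 v⟩
  refine Submodule.span_mono ?_ hmain
  rintro _ ⟨σ, B, hB, rfl⟩
  refine ⟨σ, B, fun l => ?_, rfl⟩
  obtain ⟨Δ', hΔ', h⟩ := hB l
  obtain ⟨Δ, hΔ, h1⟩ := H.pull hψ Δ' hΔ'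
  refine ⟨Δ, hΔ, fun g hg u v => ?_⟩
  obtain ⟨p, hp, hp1, hp2⟩ := h1 g hg
  rw [← hp1, ← hp1, ← hp2]
  exact h p hp u v

end GHyp

end Pool.Agent.R912.T
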