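import Mathlib
import Pool.Agent.R912.T.Gal
import Pool.Agent.R912.T.Neat
import Pool.Agent.Y126.Notions

set_option autoImplicit false
set_option linter.unusedSectionVars false

/-!
# Descent to the field of the `ℓ`-adic numbers
-/

open Module TensorProduct

noncomputable section

namespace Pool.Agent.R912.T

open Pool.Agent.R912 Pool.Agent.H204R3.SP Pool.Agent.H204R3.GP Pool.Agent.W522.U
open Pool.Agent.Y126.Notions

section desc

variable {k Ω : Type*} [Field k] [Field Ω] [Algebra k Ω] {V : Type*} [AddCommGroup V] [Module k V]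
  [CharZero k] [CharZero Ω] {ν : Type*} [Fintype ν] [DecidableEq ν] (b : Basis ν k V)
  {Γ : Type*} [Group Γ] (ρ : Representation k Γ V) (χ : Γ →* k)

/-- Descent of one form (compare `tate_descent_any`). -/
theorem tate_descent_one {m : ℕ} (φ : MultilinearMap k (fun _ : Fin m × Fin 2 => V) k)
    (h1 : bcm (Ω := Ω) b φ ∈ Submodule.span Ω (PT (bcr ρ Ω) (bcc χ Ω) m)) :
    φ ∈ Submodule.span k (PT ρ χ m) := by
  classical
  let w := Basis.ofVectorSpace k Ω
  let res : MultilinearMap Ω (fun _ : Fin m × Fin 2 => Ω ⊗[k] V) Ω →ₗ[Ω]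
      ((Fin m × Fin 2 → V) → Ω) :=
    { toFun := fun F v => F (fun l => (1 : Ω) ⊗ₜ[k] v l)
      map_add' := fun _ _ => rfl
      map_smul' := fun _ _ => rfl }
  let emb : MultilinearMap k (fun _ : Fin m × Fin 2 => V) k →ₗ[k]
      ((Fin m × Fin 2 → V) → k) :=
    { toFun := fun F v => F v
      map_add' := fun _ _ => rfl
      map_smul' := fun _ _ => rfl }
  have h2 : res (bcm (Ω := Ω) b φ) = fun v => algebraMap k Ω (φ v) := by
    funext v
    exact bcm_one b φ v
  have h3 : (fun v => algebraMap k Ω (φ v)) ∈ Submodule.span Ω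
      {g : (Fin m × Fin 2 → V) → Ω | ∃ s ∈ emb '' (PT ρ χ m),
        g = fun x => algebraMap k Ω (s x)} := by
    rw [← h2]
    have h4 : (Submodule.span Ω (PT (bcr ρ Ω) (bcc χ Ω) m)).map res ≤ Submodule.span Ω
      {g : (Fin m × Fin 2 → V) → Ω | ∃ s ∈ emb '' (PT ρ χ m),
        g = fun x => algebraMap k Ω (s x)} := by
      rw [Submodule.map_span, Submodule.span_le]
      rintro _ ⟨_, ⟨σ, B, hB, rfl⟩, rfl⟩
      -- finitely many components
      let F : Finset (Basis.ofVectorSpaceIndex k Ω) := Finset.univ.biUnion (fun l : Fin m =>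
        Finset.univ.biUnion (fun i : ν => Finset.univ.biUnion (fun i' : ν =>
          (w.repr (B l ((1 : Ω) ⊗ₜ[k] b i) ((1 : Ω) ⊗ₜ[k] b i'))).support)))
      have h6 : ∀ (l : Fin m) (u v : V), B l ((1 : Ω) ⊗ₜ[k] u) ((1 : Ω) ⊗ₜ[k] v) =
          ∑ i ∈ F, w i * algebraMap k Ω (compG w (B l) i u v) := by
        intro l u v
        have h7 : (w.repr (B l ((1 : Ω) ⊗ₜ[k] u) ((1 : Ω) ⊗ₜ[k] v))).support ⊆ F := by
          intro i hi
          by_contra hiF
          rw [Finsupp.mem_support_iff] at hi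
          apply hi
          have h8 : compG w (B l) i = 0 := by
            refine b.ext fun a => b.ext fun a' => ?_
            rw [compG_apply, LinearMap.zero_apply, LinearMap.zero_apply]
            by_contra h9
            apply hiF
            simp only [F, Finset.mem_biUnion, Finset.mem_univ, true_and]
            exact ⟨l, a, a', Finsupp.mem_support_iff.2 h9⟩
          rw [← compG_apply, h8]
          rfl
        conv_lhs => rw [← w.linearCombination_repr (B l ((1 : Ω) ⊗ₜ[k] u) ((1 : Ω) ⊗ₜ[k] v)),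
          Finsupp.linearCombination_apply, Finsupp.sum_of_support_subset _ h7 (fun i a => a • w i) (fun i _ => zero_smul _ _)]
        refine Finset.sum_congr rfl fun i _ => ?_
        rw [compG_apply, Algebra.smul_def, mul_comm]
      have h5 : res (mmG σ B) = ∑ g ∈ Fintype.piFinset (fun _ : Fin m => F), (∏ l, w (g l)) •
          (fun v => algebraMap k Ω (mmG σ (fun l => compG w (B l) (g l)) v)) := by
        funext v
        rw [Finset.sum_apply]
        change mmG σ B (fun l => (1 : Ω) ⊗ₜ[k] v l) = _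
        rw [mmG_apply]
        rw [Finset.prod_congr rfl (fun l _ => h6 l _ _), Finset.prod_univ_sum]
        refine Finset.sum_congr rfl fun g _ => ?_
        rw [Finset.prod_mul_distrib, Pi.smul_apply, smul_eq_mul, mmG_apply, map_prod]
      rw [h5]
      refine Submodule.sum_mem _ fun g _ => Submodule.smul_mem _ _ (Submodule.subset_span ?_)
      exact ⟨_, ⟨_, ⟨σ, _, fun l => compG_tate ρ χ w (hB l) (g l), rfl⟩, rfl⟩, rfl⟩
    exact h4 (Submodule.mem_map_of_mem h1)
  have h4 := span_descent_k _ _ h3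
  rw [← Submodule.map_span] at h4
  obtain ⟨φ', hφ', hφφ⟩ := h4
  have h6 : φ' = φ := MultilinearMap.ext fun v => congrFun hφφ v
  rwa [← h6]

end desc

section alt

variable {k : Type} [Field k] [CharZero k] {V : Type} [AddCommGroup V] [Module k V]
  {Γ : Type} [Group Γ] (ρ : Representation k Γ V) (χ : Γ →* k)

/-- From multilinear forms to alternating forms. -/
theorem alt_of_mem {m : ℕ} (f : V [⋀^Fin m × Fin 2]→ₗ[k] k)
    (h : f.toMultilinearMap ∈ Submodule.span k (PT ρ χ m)) :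
    f ∈ Submodule.span k {g : V [⋀^Fin m × Fin 2]→ₗ[k] k |
      ∃ B : Fin m → V [⋀^Fin 2]→ₗ[k] k,
        (∀ l, ∃ Δ : Subgroup Γ, Δ.FiniteIndex ∧ ∀ s ∈ Δ, ∀ v : Fin 2 → V,
          B l (fun ε => ρ s (v ε)) = χ s * B l v) ∧
        ∀ v, g v = ∑ σ : Equiv.Perm (Fin m × Fin 2), ((Equiv.Perm.sign σ : ℤ) : k) *
          ∏ l, B l ![v (σ (l, 0)), v (σ (l, 1))]} := by
  classical
  let BB : Set (MultilinearMap k (fun _ : Fin 2 => V) k) :=
    {B | ∃ Δ : Subgroup Γ, Δ.FiniteIndex ∧ ∀ s ∈ Δ, ∀ v : Fin 2 → V,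
      B (fun ε => ρ s (v ε)) = χ s * B v}
  have hmem : (fun v => f v) ∈ Submodule.span k {g : (Fin m × Fin 2 → V) → k |
      ∃ (e : Equiv.Perm (Fin m × Fin 2)) (B : Fin m → MultilinearMap k (fun _ : Fin 2 => V) k),
        (∀ s, B s ∈ BB) ∧ g = fun v => ∏ s, B s (fun ε => v (e (s, ε)))} := by
    have h3 : ∀ φ ∈ Submodule.span k (PT ρ χ m), (fun v : Fin m × Fin 2 → V => φ v) ∈
        Submodule.span k {g : (Fin m × Fin 2 → V) → k |
      ∃ (e : Equiv.Perm (Fin m × Fin 2)) (B : Fin m → MultilinearMap k (fun _ : Fin 2 => V) k),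
        (∀ s, B s ∈ BB) ∧ g = fun v => ∏ s, B s (fun ε => v (e (s, ε)))} := by
      intro φ hφ
      induction hφ using Submodule.span_induction with
      | mem φ hφ =>
        obtain ⟨σ, B, hB, rfl⟩ := hφ
        refine Submodule.subset_span ⟨σ, fun s => bil2 (B s), fun s => ?_, ?_⟩
        · obtain ⟨Δ, hΔ, h1⟩ := hB s
          refine ⟨Δ, hΔ, fun g hg v => ?_⟩
          rw [bil2_apply, bil2_apply]
          exact h1 g hg _ _
        · funext v
          rw [mmG_apply]
          rfl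
      | zero => exact Submodule.zero_mem _
      | add a b _ _ ha hb => exact Submodule.add_mem _ ha hb
      | smul c a _ ha => exact Submodule.smul_mem _ c ha
    exact h3 _ h
  have h1 := alt_span BB f hmem
  refine Submodule.span_mono ?_ h1
  rintro g ⟨B, hB, hg⟩
  refine ⟨fun l => MultilinearMap.alternatization (B l), fun l => ?_, hg⟩
  obtain ⟨Δ, hΔ, h2⟩ := hB l
  refine ⟨Δ, hΔ, fun s hs v => ?_⟩
  rw [MultilinearMap.alternatization_apply, MultilinearMap.alternatization_apply, Finset.mul_sum]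
  refine Finset.sum_congr rfl fun σ _ => ?_
  rw [mul_smul_comm]
  congr 1
  exact h2 s hs (fun ε => v (σ ε))

end alt

section altQ4

variable {k : Type} [Field k] [CharZero k] [Algebra k ℂ] {W : Type} [AddCommGroup W] [Module k W]
  [FiniteDimensional k W]

/-- The base change of an alternating form is alternating. -/
theorem alt_bcm' {ν : Type} [Fintype ν] [DecidableEq ν] (β : Basis ν k W)
    (φ : W [⋀^Fin 2 × Fin 2]→ₗ[k] k) :
    Alt4 (toQ4 (bcm (Ω := ℂ) β φ.toMultilinearMap)) := by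
  obtain ⟨Ψ, hΨ⟩ : ∃ Ψ, Ψ = bcm (Ω := ℂ) β φ.toMultilinearMap := ⟨_, rfl⟩
  rw [← hΨ]
  have key : ∀ i j : Fin 2 × Fin 2, i ≠ j → ∀ v : Fin 2 × Fin 2 → ℂ ⊗[k] W,
      Ψ (v ∘ Equiv.swap i j) = -Ψ v := by
    intro i j hij v
    have h1 : Ψ.domDomCongr (Equiv.swap i j) = -Ψ := by
      refine Basis.ext_multilinear (fun _ => β.baseChange ℂ) fun I => ?_
      rw [_root_.neg_apply, MultilinearMap.domDomCongr_apply, hΨ]
      have h2 := bcm_basis (Ω := ℂ) β φ.toMultilinearMap (fun l => I (Equiv.swap i j l))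
      have h3 := bcm_basis (Ω := ℂ) β φ.toMultilinearMap I
      rw [h2, h3, ← map_neg]
      congr 1
      exact φ.map_swap (fun l => β (I l)) hij
    have h2 := congrArg (fun F : MultilinearMap ℂ (fun _ : Fin 2 × Fin 2 => ℂ ⊗[k] W) ℂ => F v) h1
    exact h2
  refine ⟨fun a b c d => ?_, fun a b c d => ?_, fun a b c d => ?_⟩
  · rw [toQ4_apply, toQ4_apply, ← key (0, 0) (0, 1) (by simp)]
    congr 1
    funext l
    revert l
    refine forall4 ?_ ?_ ?_ ?_ <;> simp [Equiv.swap_apply_def]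
  · rw [toQ4_apply, toQ4_apply, ← key (0, 1) (1, 0) (by simp)]
    congr 1
    funext l
    revert l
    refine forall4 ?_ ?_ ?_ ?_ <;> simp [Equiv.swap_apply_def]
  · rw [toQ4_apply, toQ4_apply, ← key (1, 0) (1, 1) (by simp)]
    congr 1
    funext l
    revert l
    refine forall4 ?_ ?_ ?_ ?_ <;> simp [Equiv.swap_apply_def]

end altQ4

/-! ## Change of the algebraically closed field -/

section change

variable {k K V Γ : Type} [Field k] [Field K] [Algebra k K] [Algebra k ℂ] [AddCommGroup V]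
  [Module k V] [Group Γ] (e : ℂ ≃ₐ[k] K) (ρ : Representation k Γ V) (χ : Γ →* k)

/-- the change of coefficients -/
def tau : ℂ ⊗[k] V ≃ₗ[k] K ⊗[k] V := TensorProduct.congr e.toLinearEquiv (LinearEquiv.refl k V)

theorem tau_tmul (a : ℂ) (v : V) : tau e (a ⊗ₜ[k] v) = e a ⊗ₜ[k] v := rfl

theorem tau_smul (c : ℂ) (x : ℂ ⊗[k] V) : tau e (c • x) = e c • tau e x := by
  induction x with
  | zero => simp only [smul_zero, map_zero]
  | add x y hx hy => rw [smul_add, map_add, hx, hy, map_add, smul_add]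
  | tmul a v => rw [TensorProduct.smul_tmul', tau_tmul, tau_tmul, TensorProduct.smul_tmul',
      smul_eq_mul, smul_eq_mul, map_mul]

theorem tau_rho (g : Γ) (x : ℂ ⊗[k] V) : tau e (bcr ρ ℂ g x) = extend K ρ g (tau e x) := by
  induction x with
  | zero => simp only [map_zero]
  | add x y hx hy => rw [map_add, map_add, hx, hy, map_add, map_add]
  | tmul a v => rfl

/-- the image of a subspace -/
def tauS (U : Submodule ℂ (ℂ ⊗[k] V)) : Submodule K (K ⊗[k] V) where
  carrier := {y | (tau e).symm y ∈ U}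
  zero_mem' := by
    change (tau e).symm 0 ∈ U
    rw [map_zero]
    exact U.zero_mem
  add_mem' := fun {a b} ha hb => by
    change (tau e).symm (a + b) ∈ U
    rw [map_add]
    exact U.add_mem ha hb
  smul_mem' := fun c a ha => by
    change (tau e).symm (c • a) ∈ U
    have h1 : (tau e).symm (c • a) = e.symm c • (tau e).symm a := by
      apply (tau e).injective
      rw [tau_smul, LinearEquiv.apply_symm_apply, LinearEquiv.apply_symm_apply,
        AlgEquiv.apply_symm_apply]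
    rw [h1]
    exact U.smul_mem _ ha

theorem mem_tauS {U : Submodule ℂ (ℂ ⊗[k] V)} {y : K ⊗[k] V} :
    y ∈ tauS e U ↔ (tau e).symm y ∈ U := Iff.rfl

theorem tau_mem_tauS {U : Submodule ℂ (ℂ ⊗[k] V)} {x : ℂ ⊗[k] V} :
    tau e x ∈ tauS e U ↔ x ∈ U := by
  rw [mem_tauS, LinearEquiv.symm_apply_apply]

/-- the preimage of a subspace -/
def tauC (W : Submodule K (K ⊗[k] V)) : Submodule ℂ (ℂ ⊗[k] V) where
  carrier := {x | tau e x ∈ W}
  zero_mem' := by
    change tau e 0 ∈ W
    rw [map_zero]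
    exact W.zero_mem
  add_mem' := fun {a b} ha hb => by
    change tau e (a + b) ∈ W
    rw [map_add]
    exact W.add_mem ha hb
  smul_mem' := fun c a ha => by
    change tau e (c • a) ∈ W
    rw [tau_smul]
    exact W.smul_mem _ ha

theorem mem_tauC {W : Submodule K (K ⊗[k] V)} {x : ℂ ⊗[k] V} : x ∈ tauC e W ↔ tau e x ∈ W :=
  Iff.rfl

theorem si_tau {U : Submodule ℂ (ℂ ⊗[k] V)} (hU : SI (bcr ρ ℂ) U) :
    StronglyIrreducible (extend K ρ) (tauS e U) := by
  obtain ⟨h1, ⟨Δ, hΔ, h2⟩, h3⟩ := hU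
  refine ⟨?_, ⟨Δ, hΔ, fun g hg y hy => ?_⟩, fun W hW hWp => ?_⟩
  · intro hb
    obtain ⟨u, hu, hu0⟩ := (Submodule.ne_bot_iff U).1 h1
    have h4 : tau e u ∈ tauS e U := (tau_mem_tauS e).2 hu
    rw [hb, Submodule.mem_bot] at h4
    exact hu0 ((tau e).map_eq_zero_iff.1 h4)
  · obtain ⟨x, rfl⟩ := (tau e).surjective y
    rw [tau_mem_tauS] at hy
    rw [← tau_rho, tau_mem_tauS]
    exact h2 g hg x hy
  · obtain ⟨Δ', hΔ', h4⟩ := hWp
    have h5 : tauC e W = ⊥ ∨ tauC e W = U := by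
      refine h3 (tauC e W) (fun x hx => ?_) ⟨Δ', hΔ', fun g hg x hx => ?_⟩
      · rw [mem_tauC] at hx
        exact (tau_mem_tauS e).1 (hW hx)
      · rw [mem_tauC] at hx ⊢
        rw [tau_rho]
        exact h4 g hg _ hx
    rcases h5 with h5 | h5
    · left
      rw [eq_bot_iff]
      intro y hy
      obtain ⟨x, rfl⟩ := (tau e).surjective y
      have h6 : x ∈ tauC e W := hy
      rw [h5, Submodule.mem_bot] at h6
      rw [h6, map_zero]
      exact Submodule.zero_mem _
    · right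
      ext y
      obtain ⟨x, rfl⟩ := (tau e).surjective y
      rw [tau_mem_tauS, ← mem_tauC, h5]

/-- transport of forms -/
def tauB (B : (K ⊗[k] V) →ₗ[K] (K ⊗[k] V) →ₗ[K] K) : (ℂ ⊗[k] V) →ₗ[ℂ] (ℂ ⊗[k] V) →ₗ[ℂ] ℂ :=
  LinearMap.mk₂ ℂ (fun u v => e.symm (B (tau e u) (tau e v)))
    (fun u u' v => by rw [map_add, map_add, LinearMap.add_apply, map_add])
    (fun c u v => by
      rw [tau_smul, map_smul, LinearMap.smul_apply, smul_eq_mul, map_mul, AlgEquiv.symm_apply_apply,
        smul_eq_mul])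
    (fun u v v' => by rw [map_add, map_add, map_add])
    (fun c u v => by
      rw [tau_smul, map_smul, smul_eq_mul, map_mul, AlgEquiv.symm_apply_apply, smul_eq_mul])

theorem tauB_apply (B : (K ⊗[k] V) →ₗ[K] (K ⊗[k] V) →ₗ[K] K) (u v : ℂ ⊗[k] V) :
    tauB e B u v = e.symm (B (tau e u) (tau e v)) := rfl

theorem symp_tau {U : Submodule ℂ (ℂ ⊗[k] V)}
    (hU : IsSymplectic (extend K ρ) ((algebraMap k K : k →* K).comp χ) (tauS e U)) :
    ∃ Δ : Subgroup Γ, Δ.FiniteIndex ∧ ∃ B : (ℂ ⊗[k] V) →ₗ[ℂ] (ℂ ⊗[k] V) →ₗ[ℂ] ℂ,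
      (∃ u ∈ U, ∃ v ∈ U, B u v ≠ 0) ∧ (∀ u ∈ U, B u u = 0) ∧
      ∀ g ∈ Δ, ∀ u ∈ U, ∀ v ∈ U, B (bcr ρ ℂ g u) (bcr ρ ℂ g v) = bcc χ ℂ g * B u v := by
  obtain ⟨Δ, hΔ, B, ⟨u0, hu0, v0, hv0, hB0⟩, hB1, hB2⟩ := hU
  refine ⟨Δ, hΔ, tauB e B, ?_, fun u hu => ?_, fun g hg u hu v hv => ?_⟩
  · refine ⟨(tau e).symm u0, hu0, (tau e).symm v0, hv0, ?_⟩
    rw [tauB_apply, LinearEquiv.apply_symm_apply, LinearEquiv.apply_symm_apply]
    intro h
    exact hB0 (e.symm.map_eq_zero_iff.1 h)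
  · rw [tauB_apply, hB1 _ ((tau_mem_tauS e).2 hu), map_zero]
  · rw [tauB_apply, tauB_apply, tau_rho, tau_rho,
      hB2 g hg _ ((tau_mem_tauS e).2 hu) _ ((tau_mem_tauS e).2 hv), map_mul, bcc_apply]
    congr 1
    exact e.symm.commutes (χ g)

end change

end Pool.Agent.R912.T
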