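import Mathlib
import Pool.Agent.R912.T.Desc

set_option autoImplicit false
set_option linter.unusedSectionVars false

/-!
# Tate classes of degree four on abelian fourfolds
-/

open Module TensorProduct

noncomputable section

namespace Pool.Agent.R912.T

open Pool.Agent.R912 Pool.Agent.H204R3.SP Pool.Agent.H204R3.GP Pool.Agent.W522.U
open Pool.Agent.Y126.Notions

open Cardinal in
theorem mk_padic (ℓ : ℕ) [Fact ℓ.Prime] : #ℚ_[ℓ] = 𝔠 := by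
  apply le_antisymm
  · have h1 : #ℚ_[ℓ] ≤ #(CauSeq ℚ (padicNorm ℓ)) := mk_le_of_surjective Quotient.mk_surjective
    have h2 : #(CauSeq ℚ (padicNorm ℓ)) ≤ #(ℕ → ℚ) :=
      mk_le_of_injective (f := fun s => s.1) Subtype.val_injective
    have h3 : #(ℕ → ℚ) = 𝔠 := by
      rw [← power_def, mk_nat, Cardinal.mkRat, aleph0_power_aleph0]
    exact (h1.trans h2).trans h3.le
  · exact continuum_le_cardinal_of_nontriviallyNormedField ℚ_[ℓ]

open Cardinal in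
theorem exists_iso (ℓ : ℕ) [Fact ℓ.Prime] : Nonempty (ℂ ≃+* AlgebraicClosure ℚ_[ℓ]) := by
  have h1 : #(AlgebraicClosure ℚ_[ℓ]) = 𝔠 := by
    apply le_antisymm
    · have h2 := Algebra.IsAlgebraic.cardinalMk_le_max ℚ_[ℓ] (AlgebraicClosure ℚ_[ℓ])
      rw [mk_padic] at h2
      exact h2.trans (max_le le_rfl aleph0_le_continuum)
    · rw [← mk_padic ℓ]
      exact mk_le_of_injective (algebraMap ℚ_[ℓ] (AlgebraicClosure ℚ_[ℓ])).injective
  have h2 : #ℂ = 𝔠 := Cardinal.mk_complex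
  refine IsAlgClosed.ringEquiv_of_equiv_of_charZero ?_ ?_
  · rw [h2]
    exact aleph0_lt_continuum
  · rw [← Cardinal.eq, h1, h2]

/-- **Tate classes of degree four**, with coefficients in the complex numbers. -/
theorem main_ext (ℓ : ℕ) [Fact ℓ.Prime] {V Γ : Type} [AddCommGroup V] [Module ℚ_[ℓ] V]
    [FiniteDimensional ℚ_[ℓ] V] (hV : finrank ℚ_[ℓ] V = 8) [Group Γ]
    (ρ : Representation ℚ_[ℓ] Γ V) (χ : Γ →* ℚ_[ℓ]) {ι : Type} [Fintype ι] [DecidableEq ι]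
    (b : Basis ι ℚ_[ℓ] V) (hint : ∀ g i j, ‖LinearMap.toMatrix b b (ρ g) i j‖ ≤ 1)
    (ω : V →ₗ[ℚ_[ℓ]] V →ₗ[ℚ_[ℓ]] ℚ_[ℓ]) (halt : ∀ v, ω v v = 0)
    (hnd : ∀ u, (∀ v, ω v u = 0) → u = 0)
    (hω : ∀ s u v, ω (ρ s u) (ρ s v) = χ s * ω u v)
    (hss : PotentiallySemisimple ρ)
    (hsymp : ∀ U, StronglyIrreducible (extend (AlgebraicClosure ℚ_[ℓ]) ρ) U →
      IsSymplectic (extend (AlgebraicClosure ℚ_[ℓ]) ρ)
        ((algebraMap ℚ_[ℓ] (AlgebraicClosure ℚ_[ℓ]) : ℚ_[ℓ] →* _).comp χ) U)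
    [Algebra ℚ_[ℓ] ℂ] (e : ℂ ≃ₐ[ℚ_[ℓ]] AlgebraicClosure ℚ_[ℓ])
    (f : V [⋀^Fin 2 × Fin 2]→ₗ[ℚ_[ℓ]] ℚ_[ℓ]) (hf : IsTate ρ χ 2 f.toMultilinearMap) :
    f.toMultilinearMap ∈ Submodule.span ℚ_[ℓ] (PT ρ χ 2) := by
  classical
  have halg : Algebra.IsAlgebraic ℚ_[ℓ] ℂ := e.symm.isAlgebraic
  let β := Module.finBasis ℚ_[ℓ] V
  refine tate_descent_one (Ω := ℂ) β ρ χ f.toMultilinearMap ?_
  have hnd' : ∀ u, (∀ v, ω u v = 0) → u = 0 := left_nondeg ω halt hnd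
  have halt' : ∀ u v, bcb ℂ ω u v = -bcb ℂ ω v u := by
    have h0 : ∀ u v, ω u v = -ω v u := by
      intro u v
      have h1 := halt (u + v)
      simp only [map_add, LinearMap.add_apply, halt, zero_add, add_zero] at h1
      linear_combination h1
    intro u v
    induction u with
    | zero => simp only [map_zero, LinearMap.zero_apply, neg_zero]
    | add u u' hu hu' =>
      simp only [map_add, LinearMap.add_apply, hu, hu']
      ring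
    | tmul a u =>
      induction v with
      | zero => simp only [map_zero, LinearMap.zero_apply, neg_zero]
      | add v v' hv hv' =>
        simp only [map_add, LinearMap.add_apply, hv, hv']
        ring
      | tmul c v => rw [bcb_tmul, bcb_tmul, h0 u v, neg_smul, mul_comm a c]
  have H : GHyp (bcr ρ ℂ) (bcc χ ℂ) (bcb ℂ ω) (neat ρ b hint) :=
    { fin := neat_finiteIndex hint
      neat := by
        intro g hg
        refine mem_adjoin_lieT ?_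
        rintro z z' ⟨u, hu0, hu⟩ ⟨v, hv0, hv⟩ r hr h
        apply e.injective
        have h1 : ∀ (z : ℂ) (u : ℂ ⊗[ℚ_[ℓ]] V), bcr ρ ℂ g u = z • u →
            bcr ρ (PadicAlgCl ℓ) g (tau e u) = e z • tau e u := by
          intro z u hu
          have h2 := tau_rho e ρ g u
          rw [hu, tau_smul] at h2
          exact h2.symm
        refine neat_neat (b := b) (hint := hint) hg (u := tau e u) (v := tau e v) ?_ ?_
          (h1 z u hu) (h1 z' v hv) hr ?_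
        · intro h2
          exact hu0 ((tau e).map_eq_zero_iff.1 h2)
        · intro h2
          exact hv0 ((tau e).map_eq_zero_iff.1 h2)
        · rw [← map_div₀, ← map_pow, h, map_one]
      proj := hasProj_bcr (Ω := ℂ) ρ hss
      alt := halt'
      nd := fun u hu => bcb_nondeg_right ω hnd hnd' u hu
      sim := fun s u v => bcb_inv ρ χ ω hω s u v
      symp := fun U hU => symp_tau e ρ χ (hsymp _ (si_tau e ρ hU)) }
  refine H.main ?_ (bcm_tate (Ω := ℂ) β ρ χ _ hf) (alt_bcm' β f)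
  rw [finrank_baseChange, hV]

/-- **Tate classes of degree four.** -/
theorem main_four (ℓ : ℕ) [Fact ℓ.Prime] {V Γ : Type} [AddCommGroup V] [Module ℚ_[ℓ] V]
    [FiniteDimensional ℚ_[ℓ] V] (hV : finrank ℚ_[ℓ] V = 8) [Group Γ]
    (ρ : Representation ℚ_[ℓ] Γ V) (χ : Γ →* ℚ_[ℓ]) {ι : Type} [Fintype ι] [DecidableEq ι]
    (b : Basis ι ℚ_[ℓ] V) (hint : ∀ g i j, ‖LinearMap.toMatrix b b (ρ g) i j‖ ≤ 1)
    (ω : V →ₗ[ℚ_[ℓ]] V →ₗ[ℚ_[ℓ]] ℚ_[ℓ]) (halt : ∀ v, ω v v = 0)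
    (hnd : ∀ u, (∀ v, ω v u = 0) → u = 0)
    (hω : ∀ s u v, ω (ρ s u) (ρ s v) = χ s * ω u v)
    (hss : PotentiallySemisimple ρ)
    (hsymp : ∀ U, StronglyIrreducible (extend (AlgebraicClosure ℚ_[ℓ]) ρ) U →
      IsSymplectic (extend (AlgebraicClosure ℚ_[ℓ]) ρ)
        ((algebraMap ℚ_[ℓ] (AlgebraicClosure ℚ_[ℓ]) : ℚ_[ℓ] →* _).comp χ) U)
    (f : V [⋀^Fin 2 × Fin 2]→ₗ[ℚ_[ℓ]] ℚ_[ℓ])
    (hf : ∃ Δ : Subgroup Γ, Δ.FiniteIndex ∧ ∀ s ∈ Δ, ∀ v : Fin 2 × Fin 2 → V,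
      f (fun l => ρ s (v l)) = χ s ^ 2 * f v) :
    f ∈ Submodule.span ℚ_[ℓ] {g : V [⋀^Fin 2 × Fin 2]→ₗ[ℚ_[ℓ]] ℚ_[ℓ] |
      ∃ B : Fin 2 → V [⋀^Fin 2]→ₗ[ℚ_[ℓ]] ℚ_[ℓ],
        (∀ l, ∃ Δ : Subgroup Γ, Δ.FiniteIndex ∧ ∀ s ∈ Δ, ∀ v : Fin 2 → V,
          B l (fun ε => ρ s (v ε)) = χ s * B l v) ∧
        ∀ v, g v = ∑ σ : Equiv.Perm (Fin 2 × Fin 2), ((Equiv.Perm.sign σ : ℤ) : ℚ_[ℓ]) *
          ∏ l, B l ![v (σ (l, 0)), v (σ (l, 1))]} := by
  obtain ⟨σ⟩ := exists_iso ℓ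
  letI : Algebra ℚ_[ℓ] ℂ :=
    ((σ.symm : AlgebraicClosure ℚ_[ℓ] →+* ℂ).comp (algebraMap ℚ_[ℓ] _)).toAlgebra
  let e : ℂ ≃ₐ[ℚ_[ℓ]] AlgebraicClosure ℚ_[ℓ] :=
    { σ with
      commutes' := fun r => by
        change σ (σ.symm (algebraMap ℚ_[ℓ] _ r)) = _
        rw [RingEquiv.apply_symm_apply] }
  exact alt_of_mem ρ χ f
    (main_ext ℓ hV ρ χ b hint ω halt hnd hω hss hsymp e f hf)

end Pool.Agent.R912.T
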